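import Pool.Agent.K4H15.GM.Fe
import Pool.Agent.W388.TW.Parts

/-!
# Project GM: newforms
-/

set_option autoImplicit false

open Complex Filter Topology Set UpperHalfPlane MatrixGroups CongruenceSubgroup ZMod

namespace Pool.Agent.K4H15.GM

open Pool.Agent.W108.TW Pool.Agent.W440.TW

variable {N : ℕ} [NeZero N] {m : ℕ} {f : CuspForm (Gamma0 N : Subgroup (GL (Fin 2) ℝ)) ((2 * m : ℕ) : ℤ)}
  {ε : ℝ}

/-- the Fourier coefficients -/
noncomputable def co (f : CuspForm (Gamma0 N : Subgroup (GL (Fin 2) ℝ)) ((2 * m : ℕ) : ℤ)) (n : ℕ) :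
    ℂ := (qExpansion 1 f).coeff n

lemma co_zero (f : CuspForm (Gamma0 N : Subgroup (GL (Fin 2) ℝ)) ((2 * m : ℕ) : ℤ)) : co f 0 = 0 :=
  W388.coeff_zero f

lemma co_bd (hm : 1 ≤ m) (f : CuspForm (Gamma0 N : Subgroup (GL (Fin 2) ℝ)) ((2 * m : ℕ) : ℤ)) :
    ∃ C : ℝ, 0 ≤ C ∧ ∀ n : ℕ, 1 ≤ n → ‖co f n‖ ≤ C * (n : ℝ) ^ (m : ℝ) := by
  obtain ⟨C, hC⟩ := W388.coeff_bound f (by exact_mod_cast (by omega : 1 ≤ 2 * m))
  refine ⟨|C|, abs_nonneg _, fun n hn => ?_⟩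
  have h := hC n hn
  have e : ((((2 * m : ℕ) : ℤ) : ℝ) / 2) = m := by push_cast; ring
  rw [e] at h
  exact h.trans (mul_le_mul_of_nonneg_right (le_abs_self C) (by positivity))

lemma co_gr (hm : 1 ≤ m) (f : CuspForm (Gamma0 N : Subgroup (GL (Fin 2) ℝ)) ((2 * m : ℕ) : ℤ)) :
    Gr (co f) := by
  obtain ⟨C, hC0, hC⟩ := co_bd hm f
  exact ⟨co_zero f, C, m, hC0, hC⟩

lemma ser_eq (f : CuspForm (Gamma0 N : Subgroup (GL (Fin 2) ℝ)) ((2 * m : ℕ) : ℤ)) (z : ℍ) :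
    ser (co f) (z : ℂ) = f z := by
  have hf : HasSum (fun n : ℕ => co f n *
      Complex.exp (2 * Real.pi * Complex.I * n * (z : ℂ))) (f z) := by
    have h1 : (1 : ℝ) ∈ (Gamma0 N : Subgroup (GL (Fin 2) ℝ)).strictPeriods := by
      rw [strictPeriods_Gamma0]
      exact AddSubgroup.mem_zmultiples 1
    have h2 := ModularForm.hasSum_qExpansion (f := f) one_pos h1 z
    refine HasSum.congr_fun' h2 (fun n => ?_)
    rw [Function.Periodic.qParam, ← Complex.exp_nat_mul]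
    unfold co
    congr 2
    push_cast
    ring
  exact hf.tsum_eq

lemma mo_smul (γ : SL(2, ℤ)) (z : ℍ) : ((γ • z : ℍ) : ℂ) = mo γ z := by
  have hden : denom (γ : GL (Fin 2) ℝ) z = jm γ z := by
    rw [ModularGroup.denom_apply]
    unfold jm
    push_cast
    rfl
  rw [ModularGroup.sl_moeb, coe_smul_of_det_pos (by simp) z, hden]
  unfold mo
  rw [show (((((γ 1 0 : ℤ) : ℚ) : ℂ) * z + (((γ 1 1 : ℤ) : ℚ) : ℂ))) = jm γ z from rfl]
  congr 1

theorem md_of (hm : 1 ≤ m) (hf : W388.IsNewf N ((2 * m : ℕ) : ℤ) f ε) : Md N m (co f) (ε : ℂ) := by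
  have hN : (0 : ℝ) < N := Nat.cast_pos.2 (Nat.pos_of_ne_zero (NeZero.ne N))
  have hNc : (N : ℂ) ≠ 0 := Nat.cast_ne_zero.2 (NeZero.ne N)
  refine ⟨co_gr hm f, fun γ hγ z hz => ?_, fun z hz => ?_⟩
  · have e1 := SlashInvariantForm.slash_action_eqn_SL'' f hγ ⟨z, hz⟩
    have hden : denom (γ : GL (Fin 2) ℝ) (⟨z, hz⟩ : ℍ) = jm γ z := by
      rw [ModularGroup.denom_apply]
      unfold jm
      push_cast
      rfl
    have h2 := ser_eq f (γ • (⟨z, hz⟩ : ℍ))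
    rw [mo_smul] at h2
    have h3 := ser_eq f (⟨z, hz⟩ : ℍ)
    have h4 : ser (co f) (mo γ z) = f (γ • (⟨z, hz⟩ : ℍ)) := h2
    have h5 : ser (co f) z = f (⟨z, hz⟩ : ℍ) := h3
    rw [h4, h5, e1, hden, zpow_natCast]
  · have him : 0 < (-1 / ((N : ℂ) * z)).im := by
      have := im_moeb (a := 0) (b := -1) (c := N) (d := 0) (by
        have : (0 : ℚ) < N := Nat.cast_pos.2 (Nat.pos_of_ne_zero (NeZero.ne N))
        linarith) (z := z) hz
      push_cast at this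
      rwa [zero_mul, zero_add, add_zero] at this
    have hz0 : z ≠ 0 := by
      rintro rfl
      simp at hz
    have h1 := hf.fricke ⟨z, hz⟩ ⟨-1 / (N * z), him⟩ (by
      show (-1 / (N * z)) * ((N : ℂ) * z) = -1
      field_simp)
    have h4 : ser (co f) (-1 / (N * z)) = f (⟨-1 / (N * z), him⟩ : ℍ) := ser_eq f ⟨_, him⟩
    have h5 : ser (co f) z = f (⟨z, hz⟩ : ℍ) := ser_eq f ⟨z, hz⟩
    rw [h4, h5, h1, zpow_natCast]
    have h6 : (((Real.sqrt N : ℝ) : ℂ) * z / Complex.I) ^ (2 * m) = (-1) ^ m * N ^ m * z ^ (2 * m) := by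
      have hss : ((Real.sqrt N : ℝ) : ℂ) ^ 2 = (N : ℂ) := by
        rw [← Complex.ofReal_pow, Real.sq_sqrt hN.le]; simp
      rw [div_pow, mul_pow, pow_mul, pow_mul Complex.I, Complex.I_sq, hss]
      have h7 : ((-1 : ℂ) ^ m) * (-1) ^ m = 1 := by
        rw [← mul_pow]
        norm_num
      have h8 : ((-1 : ℂ) ^ m) ≠ 0 := pow_ne_zero _ (by norm_num)
      rw [div_eq_iff h8]
      linear_combination (-((N : ℂ) ^ m * z ^ (2 * m))) * h7
    show (ε : ℂ) * (((Real.sqrt N : ℝ) : ℂ) * z / Complex.I) ^ (2 * m) * f (⟨z, hz⟩ : ℍ) = _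
    rw [h6]
    ring

/-- the entire `L`-function of the twist -/
structure IsL (m : ℕ) (b : ℕ → ℂ) (L : ℂ → ℂ) : Prop where
  diff : Differentiable ℂ L
  sum : ∀ s : ℂ, (m : ℝ) + 1 < s.re → HasSum (fun n : ℕ => b n * (n : ℂ) ^ (-s)) (L s)

/-- two entire functions which agree on a half plane -/
lemma entire_eq' {F G : ℂ → ℂ} (hF : Differentiable ℂ F) (hG : Differentiable ℂ G) (R : ℝ)
    (h : ∀ s : ℂ, R < s.re → F s = G s) : F = G := by
  have hFa : AnalyticOnNhd ℂ F univ := fun z _ => hF.analyticAt z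
  have hGa : AnalyticOnNhd ℂ G univ := fun z _ => hG.analyticAt z
  refine hFa.eq_of_eventuallyEq hGa (z₀ := ((R + 1 : ℝ) : ℂ)) ?_
  have : ∀ᶠ z in 𝓝 (((R + 1 : ℝ)) : ℂ), R < z.re := by
    refine (Complex.continuous_re.isOpen_preimage _ isOpen_Ioi).mem_nhds ?_
    show R < (((R + 1 : ℝ)) : ℂ).re
    rw [Complex.ofReal_re]
    linarith
  filter_upwards [this] with z hz
  exact h z hz

theorem IsL.unique {b : ℕ → ℂ} {F G : ℂ → ℂ} (h1 : IsL m b F) (h2 : IsL m b G) : F = G :=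
  entire_eq' h1.diff h2.diff ((m : ℝ) + 1) fun s hs => (h1.sum s hs).unique (h2.sum s hs)

/-- the coefficients of the twist -/
noncomputable def tw (f : CuspForm (Gamma0 N : Subgroup (GL (Fin 2) ℝ)) ((2 * m : ℕ) : ℤ)) {q : ℕ}
    (χ : DirichletCharacter ℂ q) (n : ℕ) : ℂ := χ (n : ZMod q) * co f n

/-- the Mellin transform: `Γ(j) L(f ⊗ χ, j) / (2π)^j` -/
noncomputable def La (f : CuspForm (Gamma0 N : Subgroup (GL (Fin 2) ℝ)) ((2 * m : ℕ) : ℤ)) {q : ℕ}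
    (χ : DirichletCharacter ℂ q) (j : ℕ) : ℂ := mellin (Th (tw f χ) (2 * Real.pi)) (j : ℂ)

/-- **The twisted `L`-functions.** -/
theorem exists_L (hm : 1 ≤ m) (hf : W388.IsNewf N ((2 * m : ℕ) : ℤ) f ε) {q : ℕ} [NeZero q]
    {χ : DirichletCharacter ℂ q} (hχ : χ.IsPrimitive) (hco : q.Coprime N) :
    ∃ L : ℂ → ℂ, IsL m (tw f χ) L ∧
      (∀ s : ℂ, MellinConvergent (Th (tw f χ) (2 * Real.pi)) s) ∧
      (∀ j : ℕ, 1 ≤ j → La f χ j = Complex.Gamma j / ((2 * Real.pi : ℝ) : ℂ) ^ j * L j) ∧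
      (∀ j : ℕ, 1 ≤ j → j < 2 * m → La f χ (2 * m - j) =
        rn N (ε : ℂ) χ * ((N * (q : ℝ) ^ 2 : ℝ) : ℂ) ^ ((j : ℤ) - m) * (starRingEnd ℂ) (La f χ j)) := by
  have hN : (0 : ℝ) < N := Nat.cast_pos.2 (Nat.pos_of_ne_zero (NeZero.ne N))
  have hq : (0 : ℝ) < q := Nat.cast_pos.2 (Nat.pos_of_ne_zero (NeZero.ne q))
  have hpi := Real.pi_pos
  have hmd := md_of hm hf
  obtain ⟨C, hC0, hC⟩ := co_bd hm f
  have hε : (ε : ℂ) ≠ 0 := by
    rcases hf.sign with h | h <;> simp [h]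
  have hbb : ∀ n, tw f χ⁻¹ n = (starRingEnd ℂ) (tw f χ n) := by
    intro n
    unfold tw
    rw [map_mul]
    have h6 : (starRingEnd ℂ) (χ (n : ZMod q)) = χ⁻¹ (n : ZMod q) := MulChar.star_apply' χ _
    have h7 : (starRingEnd ℂ) (co f n) = co f n := Complex.conj_eq_iff_im.2 (hf.real n)
    rw [h6, h7]
  have hb0 : tw f χ 0 = 0 := by
    unfold tw
    rw [co_zero, mul_zero]
  have hb : ∀ n : ℕ, 1 ≤ n → ‖tw f χ n‖ ≤ C * (n : ℝ) ^ (m : ℝ) := by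
    intro n hn
    unfold tw
    rw [norm_mul]
    calc ‖χ (n : ZMod q)‖ * ‖co f n‖ ≤ 1 * ‖co f n‖ :=
          mul_le_mul_of_nonneg_right (DirichletCharacter.norm_le_one χ _) (norm_nonneg _)
      _ ≤ _ := by rw [one_mul]; exact hC n hn
  have hQ : 0 < Real.sqrt (N * (q : ℝ) ^ 2) := Real.sqrt_pos.2 (by positivity)
  have hQ2 : Real.sqrt (N * (q : ℝ) ^ 2) ^ 2 = N * (q : ℝ) ^ 2 := Real.sq_sqrt (by positivity)
  obtain ⟨L, h1, h2, h3, h4, h5⟩ := lfun (m := m) hbb hb0 hb hm hQ (w := rn N (ε : ℂ) χ)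
    (rn_ne hco hε hχ) (fun T hT => by
      rw [hQ2]
      have h6 := theta hmd χ hχ hco hT
      unfold tw
      rw [h6]
      push_cast
      rfl)
  refine ⟨L, ⟨h1, h2⟩, h3, fun j hj => ?_, fun j hj1 hj2 => ?_⟩
  · have h6 := h4 (j : ℂ) (by
      rw [Complex.natCast_re]
      exact_mod_cast hj)
    rw [Complex.cpow_natCast] at h6
    have h7 : (((2 * Real.pi : ℝ)) : ℂ) ^ j ≠ 0 :=
      pow_ne_zero _ (Complex.ofReal_ne_zero.2 (by positivity))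
    unfold La
    rw [div_mul_eq_mul_div, eq_div_iff h7, h6]
    ring
  · have h6 := h5 j hj1 hj2
    rw [hQ2] at h6
    exact h6

end Pool.Agent.K4H15.GM
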