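import Pool.Agent.K4H15.GM.Per

/-!
# Project GM: the values of the primitives at the cusps
-/

set_option autoImplicit false

open Complex Filter Topology Set Polynomial MatrixGroups CongruenceSubgroup

namespace Pool.Agent.K4H15.GM

/-- the transformation under a rational matrix, with constants in `V` -/
def TL (s : ℕ → ℂ) (K : ℕ) (V : Submodule ℚ ℂ) (lam : ℂ) (a b c d : ℚ) : Prop :=
  ∀ P : ℚ[X], P.natDegree < K → ∃ C ∈ V, ∀ z : ℂ, 0 < z.im →
    Gp s K (PC P) (((a : ℂ) * z + b) / ((c : ℂ) * z + d)) =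
      lam * Gp s K (PC (act K a b c d P)) z + C

theorem TL.exists {s : ℕ → ℂ} (h : Gr s) {K : ℕ} (hK : 0 < K) {a b c d : ℚ}
    (hdet : 0 < a * d - b * c) {lam : ℂ}
    (hf : ∀ z : ℂ, 0 < z.im → ser s (((a : ℂ) * z + b) / ((c : ℂ) * z + d)) *
      ((a * d - b * c : ℚ) : ℂ) = lam * ((c : ℂ) * z + d) ^ (K + 1) * ser s z) :
    ∃ V : Submodule ℚ ℂ, V.FG ∧ TL s K V lam a b c d := by
  have h1 : ∀ j : ℕ, ∃ C : ℂ, j < K → ∀ z : ℂ, 0 < z.im →
      Gp s K (PC (X ^ j)) (((a : ℂ) * z + b) / ((c : ℂ) * z + d)) =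
        lam * Gp s K (PC (act K a b c d (X ^ j))) z + C := by
    intro j
    by_cases hj : j < K
    · obtain ⟨C, hC⟩ := trans h hK hdet hf (P := X ^ j) (by rw [natDegree_X_pow]; exact hj)
      exact ⟨C, fun _ => hC⟩
    · exact ⟨0, fun h => absurd h hj⟩
  choose C hC using h1
  refine ⟨Submodule.span ℚ (C '' (Finset.range K : Set ℕ)), ?_, fun P hP => ?_⟩
  · exact Submodule.fg_span ((Finset.finite_toSet _).image C)
  have hPs : P = ∑ j ∈ Finset.range K, Polynomial.C (P.coeff j) * X ^ j :=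
    Polynomial.as_sum_range_C_mul_X_pow' P hP
  refine ⟨∑ j ∈ Finset.range K, ((P.coeff j : ℚ)) • C j, ?_, fun z hz => ?_⟩
  · refine Submodule.sum_mem _ fun j hj => Submodule.smul_mem _ _ (Submodule.subset_span ?_)
    exact ⟨j, by simpa using hj, rfl⟩
  have e1 : ∀ (Q : ℕ → ℚ[X]) (w : ℂ), Gp s K (PC (∑ j ∈ Finset.range K,
      Polynomial.C (P.coeff j) * Q j)) w = ∑ j ∈ Finset.range K, ((P.coeff j : ℚ) : ℂ) *
        Gp s K (PC (Q j)) w := by
    intro Q w
    unfold PC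
    rw [Polynomial.map_sum, Gp_sum]
    refine Finset.sum_congr rfl fun j _ => ?_
    rw [Polynomial.map_mul, Polynomial.map_C, Gp_C_mul]
    rfl
  have e2 : act K a b c d P = ∑ j ∈ Finset.range K, Polynomial.C (P.coeff j) *
      act K a b c d (X ^ j) := by
    unfold act
    refine Finset.sum_congr rfl fun j hj => ?_
    rw [Finset.sum_eq_single j]
    · rw [coeff_X_pow_self, C_1]
      ring
    · intro i _ hij
      rw [coeff_X_pow, if_neg hij, C_0]
      ring
    · intro h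
      exact absurd hj h
  have e4 : ∀ w : ℂ, Gp s K (PC P) w = ∑ j ∈ Finset.range K, ((P.coeff j : ℚ) : ℂ) *
        Gp s K (PC (X ^ j)) w := by
    intro w
    rw [← e1, ← hPs]
  rw [e4, e2, e1, Finset.mul_sum, ← Finset.sum_add_distrib]
  refine Finset.sum_congr rfl fun j hj => ?_
  rw [hC j (Finset.mem_range.1 hj) z hz, Rat.smul_def]
  ring

/-- a form of weight `2 m` and level `N`, eigenfunction of the Fricke involution -/
structure Md (N m : ℕ) (s : ℕ → ℂ) (ε : ℂ) : Prop where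
  gr : Gr s
  gam : ∀ γ ∈ Gamma0 N, ∀ z : ℂ, 0 < z.im → ser s (mo γ z) = jm γ z ^ (2 * m) * ser s z
  fr : ∀ z : ℂ, 0 < z.im → ser s (-1 / (N * z)) = ε * (-1) ^ m * N ^ m * z ^ (2 * m) * ser s z

/-- the cusps -/
structure Cs (N m : ℕ) (s : ℕ → ℂ) (V : Submodule ℚ ℂ) : Prop where
  lim : ∀ P : ℚ[X], P.natDegree < 2 * m - 1 → ∀ (q : ℕ) (u : ℤ), 0 < q → IsCoprime (q : ℤ) (N * u) →
    ∃ c ∈ V, Tendsto (fun y : ℝ => Gp s (2 * m - 1) (PC P) ((u : ℂ) / q + (y : ℂ) * Complex.I))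
      (𝓝[>] 0) (𝓝 c)

theorem exists_cusp {N : ℕ} [NeZero N] {m : ℕ} (hm : 1 ≤ m) {s : ℕ → ℂ} {ε : ℂ} (h : Md N m s ε) :
    ∃ V : Submodule ℚ ℂ, V.FG ∧ Cs N m s V := by
  have hN : (0 : ℝ) < N := Nat.cast_pos.2 (Nat.pos_of_ne_zero (NeZero.ne N))
  have hNc : (N : ℂ) ≠ 0 := Nat.cast_ne_zero.2 (NeZero.ne N)
  set K : ℕ := 2 * m - 1 with hKd
  have hK : 0 < K := by omega
  have hK1 : K + 1 = 2 * m := by omega
  obtain ⟨V1, hV1, hT⟩ := exists_V (N := N) h.gr hK (by rw [hK1]; exact h.gam)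
  obtain ⟨V2, hV2, hF⟩ := TL.exists h.gr hK (a := 0) (b := -1) (c := N) (d := 0)
    (lam := ε * (-1) ^ m * N / N ^ m) (by
      have : (0 : ℚ) < N := Nat.cast_pos.2 (Nat.pos_of_ne_zero (NeZero.ne N))
      linarith) (fun z hz => by
      have h1 := h.fr z hz
      push_cast
      have h2 : ((0 : ℂ) * z + -1) / ((N : ℂ) * z + 0) = -1 / (N * z) := by
        rw [zero_mul, zero_add, add_zero]
      rw [h2, h1, hK1]
      have h3 : (N : ℂ) ^ m ≠ 0 := pow_ne_zero _ hNc
      rw [add_zero, mul_pow, two_mul, pow_add (N : ℂ)]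
      field_simp
      ring)
  refine ⟨V1 ⊔ V2, hV1.sup hV2, ⟨fun P hP q u hq hco => ?_⟩⟩
  have hq0 : (0 : ℝ) < q := Nat.cast_pos.2 hq
  have hqc : (q : ℂ) ≠ 0 := Nat.cast_ne_zero.2 hq.ne'
  obtain ⟨d, v', hd⟩ := hco
  set v : ℤ := -v' with hv
  have hd1 : d * q - N * u * v = 1 := by
    rw [hv]
    linear_combination hd
  let γ : SL(2, ℤ) := ⟨!![d, u; (N : ℤ) * v, q], by
    rw [Matrix.det_fin_two_of]
    linear_combination hd1⟩
  have hγ : γ ∈ Gamma0 N := by
    rw [Gamma0_mem]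
    simp [γ]
  obtain ⟨c1, hc1, e1⟩ := hT γ hγ P hP
  obtain ⟨c2, hc2, e2⟩ := hF (ag K γ P) (ag_deg hK _ _)
  refine ⟨c2 + c1, Submodule.add_mem_sup hc1 hc2 |> fun h => by rwa [add_comm] at h, ?_⟩
  set Q : ℂ[X] := PC (act K 0 (-1) N 0 (ag K γ P)) with hQ
  -- the point at the level of the other cusp
  have hdc : (d : ℂ) * q - (N : ℂ) * u * v = 1 := by exact_mod_cast hd1
  have key : ∀ T : ℝ, 0 < T → Gp s K (PC P) ((u : ℂ) / q + ((1 / (N * q ^ 2 * T) : ℝ) : ℂ) * Complex.I) =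
      ε * (-1) ^ m * N / N ^ m * Gp s K Q (((v : ℝ) / q : ℝ) + (T : ℂ) * Complex.I) + (c2 + c1) := by
    intro T hT0
    set z' : ℂ := ((((v : ℝ) / q : ℝ)) : ℂ) + (T : ℂ) * Complex.I with hz'
    have hTc : (T : ℂ) ≠ 0 := Complex.ofReal_ne_zero.2 hT0.ne'
    have hz'im : z'.im = T := by
      rw [hz']
      simp
    have hz'0 : z' ≠ 0 := by
      intro h
      rw [h] at hz'im
      simp at hz'im
      linarith
    have hw : 0 < (-1 / ((N : ℂ) * z')).im := by
      have := im_moeb (a := 0) (b := -1) (c := N) (d := 0) (by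
        have : (0 : ℚ) < N := Nat.cast_pos.2 (Nat.pos_of_ne_zero (NeZero.ne N))
        linarith) (z := z') (by rw [hz'im]; exact hT0)
      push_cast at this
      rwa [zero_mul, zero_add, add_zero] at this
    have e3 : (u : ℂ) / q + ((1 / (N * q ^ 2 * T) : ℝ) : ℂ) * Complex.I = mo γ (-1 / (N * z')) := by
      have hj := jm_ne γ hw
      have hj' : jm γ (-1 / (N * z')) = (N : ℂ) * v * (-1 / (N * z')) + q := by
        unfold jm
        simp [γ]
      have hm' : mo γ (-1 / (N * z')) = ((d : ℂ) * (-1 / (N * z')) + u) / jm γ (-1 / (N * z')) := by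
        unfold mo jm
        simp [γ]
      have hI : Complex.I ^ 2 = -1 := Complex.I_sq
      rw [hm', eq_div_iff hj, hj']
      set x : ℂ := -1 / (N * z') with hx
      have h5 : (N : ℂ) * z' * x = -1 := by
        rw [hx]
        field_simp
      have h6 : z' * q = v + T * Complex.I * q := by
        rw [hz']
        push_cast
        field_simp
      have h7 : (N : ℂ) * v * x + q = -(N * q * T * Complex.I * x) := by
        linear_combination (-(N : ℂ) * x) * h6 + (q : ℂ) * h5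
      rw [h7]
      push_cast
      have h8 : ((u : ℂ) / q + 1 / (N * q ^ 2 * T) * Complex.I) * -(N * q * T * Complex.I * x) =
          -(u * N * T * Complex.I * x) - Complex.I ^ 2 * x / q := by
        field_simp
        ring
      rw [h8, hI]
      apply mul_right_cancel₀ hqc
      have h9 : (-(u * N * T * Complex.I * x) - -1 * x / q) * (q : ℂ) =
          -(u * N * T * Complex.I * x * q) + x := by
        field_simp
        ring
      rw [h9]
      linear_combination (-(x : ℂ)) * hdc - (u : ℂ) * h7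
    rw [e3, e1 _ hw]
    have e4 := e2 z' (by rw [hz'im]; exact hT0)
    push_cast at e4
    rw [zero_mul, zero_add, add_zero] at e4
    rw [e4]
    ring
  have hlim : Tendsto (fun T : ℝ => ε * (-1) ^ m * N / N ^ m *
      Gp s K Q (((v : ℝ) / q : ℝ) + (T : ℂ) * Complex.I) + (c2 + c1)) atTop (𝓝 (c2 + c1)) := by
    have h9 := ((Gp_line h.gr K Q ((v : ℝ) / q)).const_mul (ε * (-1) ^ m * N / N ^ m)).add_const
      (c2 + c1)
    rw [mul_zero, zero_add] at h9
    exact h9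
  have hT : Tendsto (fun y : ℝ => (N * (q : ℝ) ^ 2)⁻¹ * y⁻¹) (𝓝[>] 0) atTop :=
    (tendsto_inv_nhdsGT_zero).const_mul_atTop (by positivity)
  refine (hlim.comp hT).congr' ?_
  filter_upwards [self_mem_nhdsWithin] with y (hy : 0 < y)
  have h10 := key ((N * (q : ℝ) ^ 2)⁻¹ * y⁻¹) (by positivity)
  have h11 : (1 / (N * (q : ℝ) ^ 2 * ((N * (q : ℝ) ^ 2)⁻¹ * y⁻¹)) : ℝ) = y := by
    field_simp
  rw [h11] at h10
  exact h10.symm

end Pool.Agent.K4H15.GM
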