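import Pool.Agent.K4H15.GM.Ser
import Pool.Agent.Y18.BSD.Per

/-!
# Project GM: the primitives `∫_z^{i∞} f(w) P(w) dw` and their transformation
-/

set_option autoImplicit false

open Complex Filter Topology Set Polynomial

namespace Pool.Agent.K4H15.GM

/-- the primitive `∫_z^{i∞} f(w) P(w) dw`, for polynomials of degree `< K` -/
noncomputable def Gp (a : ℕ → ℂ) (K : ℕ) (P : ℂ[X]) (z : ℂ) : ℂ :=
  -∑ i ∈ Finset.range K, (-1) ^ i * (derivative^[i] P).eval z * ser (dd a (i + 1)) z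

theorem Gp_deriv {a : ℕ → ℂ} (h : Gr a) {K : ℕ} {P : ℂ[X]} (hP : P.natDegree < K) {z : ℂ}
    (hz : 0 < z.im) : HasDerivAt (Gp a K P) (-(ser a z * P.eval z)) z := by
  have h1 : ∀ i ∈ Finset.range K, HasDerivAt
      (fun z => (-1) ^ i * (derivative^[i] P).eval z * ser (dd a (i + 1)) z)
      ((-1) ^ i * (derivative^[i] P).eval z * ser (dd a i) z -
        (-1) ^ (i + 1) * (derivative^[i + 1] P).eval z * ser (dd a (i + 1)) z) z := by
    intro i _
    have h2 : HasDerivAt (fun z => (derivative^[i] P).eval z)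
        ((derivative (derivative^[i] P)).eval z) z := (derivative^[i] P).hasDerivAt z
    refine ((h2.const_mul ((-1) ^ i)).mul (ser_dd_deriv h i hz)).congr_deriv ?_
    rw [Function.iterate_succ_apply']
    ring
  have h3 := (HasDerivAt.fun_sum h1).neg
  refine h3.congr_deriv ?_
  rw [Finset.sum_range_sub' (fun i => (-1) ^ i * (derivative^[i] P).eval z * ser (dd a i) z)]
  rw [Polynomial.iterate_derivative_eq_zero hP]
  simp only [pow_zero, Function.iterate_zero, id_eq, dd_zero, eval_zero]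
  ring

lemma Gp_add (a : ℕ → ℂ) (K : ℕ) (P Q : ℂ[X]) (z : ℂ) :
    Gp a K (P + Q) z = Gp a K P z + Gp a K Q z := by
  unfold Gp
  rw [← neg_add, ← Finset.sum_add_distrib]
  congr 1
  refine Finset.sum_congr rfl fun i _ => ?_
  rw [iterate_map_add, eval_add]
  ring

lemma Gp_C_mul (a : ℕ → ℂ) (K : ℕ) (c : ℂ) (P : ℂ[X]) (z : ℂ) :
    Gp a K (C c * P) z = c * Gp a K P z := by
  unfold Gp
  rw [mul_neg, Finset.mul_sum]
  congr 1
  refine Finset.sum_congr rfl fun i _ => ?_
  rw [Polynomial.iterate_derivative_C_mul, eval_mul, eval_C]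
  ring

lemma Gp_zero (a : ℕ → ℂ) (K : ℕ) (z : ℂ) : Gp a K 0 z = 0 := by
  have h := Gp_C_mul a K 0 0 z
  rw [C_0, zero_mul, zero_mul] at h
  exact h

lemma Gp_sum (a : ℕ → ℂ) (K : ℕ) {ι : Type} (s : Finset ι) (P : ι → ℂ[X]) (z : ℂ) :
    Gp a K (∑ i ∈ s, P i) z = ∑ i ∈ s, Gp a K (P i) z := by
  classical
  induction s using Finset.induction_on with
  | empty => rw [Finset.sum_empty, Finset.sum_empty, Gp_zero]
  | insert i s hi ih => rw [Finset.sum_insert hi, Finset.sum_insert hi, Gp_add, ih]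

/-- decay on vertical lines -/
theorem Gp_line {a : ℕ → ℂ} (h : Gr a) (K : ℕ) (P : ℂ[X]) (x : ℝ) :
    Tendsto (fun T : ℝ => Gp a K P ((x : ℂ) + (T : ℂ) * Complex.I)) atTop (𝓝 0) := by
  unfold Gp
  rw [← neg_zero]
  refine Tendsto.neg ?_
  rw [← Finset.sum_const_zero (s := Finset.range K)]
  refine tendsto_finsetSum _ fun i _ => ?_
  set Q := derivative^[i] P with hQ
  have h1 : ∀ T : ℝ, (-1) ^ i * Q.eval ((x : ℂ) + (T : ℂ) * Complex.I) *
      ser (dd a (i + 1)) ((x : ℂ) + (T : ℂ) * Complex.I) =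
      ∑ j ∈ Finset.range (Q.natDegree + 1), (-1) ^ i * Q.coeff j *
        (((x : ℂ) + (T : ℂ) * Complex.I) ^ j *
          ser (dd a (i + 1)) ((x : ℂ) + (T : ℂ) * Complex.I)) := by
    intro T
    rw [Polynomial.eval_eq_sum_range, Finset.mul_sum, Finset.sum_mul]
    refine Finset.sum_congr rfl fun j _ => ?_
    ring
  simp only [h1]
  rw [← Finset.sum_const_zero (s := Finset.range (Q.natDegree + 1))]
  refine tendsto_finsetSum _ fun j _ => ?_
  have h2 := (ser_line (h.dd (i + 1)) x j).const_mul ((-1) ^ i * Q.coeff j)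
  rw [mul_zero] at h2
  exact h2

/-! ### the action on the polynomials -/

/-- a rational polynomial as a complex polynomial -/
noncomputable def PC (P : ℚ[X]) : ℂ[X] := P.map (algebraMap ℚ ℂ)

lemma PC_natDegree (P : ℚ[X]) : (PC P).natDegree = P.natDegree :=
  Polynomial.natDegree_map_eq_of_injective (algebraMap ℚ ℂ).injective P

/-- the action of a matrix -/
noncomputable def act (K : ℕ) (a b c d : ℚ) (P : ℚ[X]) : ℚ[X] :=
  ∑ j ∈ Finset.range K, C (P.coeff j) * (C a * X + C b) ^ j * (C c * X + C d) ^ (K - 1 - j)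

lemma act_deg {K : ℕ} (hK : 0 < K) (a b c d : ℚ) (P : ℚ[X]) : (act K a b c d P).natDegree < K := by
  have h : (act K a b c d P).natDegree ≤ K - 1 := by
    unfold act
    refine Polynomial.natDegree_sum_le_of_forall_le _ _ fun j hj => ?_
    have hj' := Finset.mem_range.1 hj
    have l1 : ∀ (u v : ℚ), (C u * X + C v : ℚ[X]).natDegree ≤ 1 := fun u v => natDegree_linear_le
    have h1 : ((C a * X + C b : ℚ[X]) ^ j).natDegree ≤ j * 1 := natDegree_pow_le_of_le _ (l1 _ _)
    have h2 : ((C c * X + C d : ℚ[X]) ^ (K - 1 - j)).natDegree ≤ (K - 1 - j) * 1 :=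
      natDegree_pow_le_of_le _ (l1 _ _)
    have h3 : (C (P.coeff j) * (C a * X + C b) ^ j : ℚ[X]).natDegree ≤ j * 1 :=
      (natDegree_C_mul_le _ _).trans h1
    refine (natDegree_mul_le).trans ?_
    omega
  omega

lemma act_eval {K : ℕ} {a b c d : ℚ} {P : ℚ[X]} (hP : P.natDegree < K) {z : ℂ}
    (h : (c : ℂ) * z + d ≠ 0) : (PC (act K a b c d P)).eval z =
      ((c : ℂ) * z + d) ^ (K - 1) * (PC P).eval (((a : ℂ) * z + b) / ((c : ℂ) * z + d)) := by
  have h1 : (PC P).eval (((a : ℂ) * z + b) / ((c : ℂ) * z + d)) =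
      ∑ j ∈ Finset.range K, ((P.coeff j : ℚ) : ℂ) *
        (((a : ℂ) * z + b) / ((c : ℂ) * z + d)) ^ j := by
    unfold PC
    rw [Polynomial.eval_map, Polynomial.eval₂_eq_sum_range' _ hP]
    rfl
  rw [h1, Finset.mul_sum]
  unfold PC act
  rw [Polynomial.map_sum, Polynomial.eval_finset_sum]
  refine Finset.sum_congr rfl fun j hj => ?_
  have hj' := Finset.mem_range.1 hj
  simp only [Polynomial.map_mul, Polynomial.map_pow, Polynomial.map_add, Polynomial.map_C,
    Polynomial.map_X, eval_mul, eval_pow, eval_add, eval_C, eval_X]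
  have h2 : ((c : ℂ) * z + d) ^ (K - 1) = ((c : ℂ) * z + d) ^ (K - 1 - j) * ((c : ℂ) * z + d) ^ j := by
    rw [← pow_add]
    congr 1
    omega
  have h3 : ((c : ℂ) * z + d) ^ j ≠ 0 := pow_ne_zero _ h
  rw [h2, div_pow]
  show ((P.coeff j : ℚ) : ℂ) * ((a : ℂ) * z + b) ^ j *
    ((c : ℂ) * z + d) ^ (K - 1 - j) = _
  generalize ((c : ℂ) * z + d) = w at *
  generalize ((a : ℂ) * z + b) = y at *
  rw [mul_assoc (w ^ (K - 1 - j)), mul_left_comm (w ^ j), mul_div_cancel₀ _ h3]
  ring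

lemma act_add (K : ℕ) (a b c d : ℚ) (P Q : ℚ[X]) :
    act K a b c d (P + Q) = act K a b c d P + act K a b c d Q := by
  unfold act
  rw [← Finset.sum_add_distrib]
  refine Finset.sum_congr rfl fun j _ => ?_
  rw [coeff_add, C_add]
  ring

lemma act_C_mul (K : ℕ) (a b c d r : ℚ) (P : ℚ[X]) :
    act K a b c d (C r * P) = C r * act K a b c d P := by
  unfold act
  rw [Finset.mul_sum]
  refine Finset.sum_congr rfl fun j _ => ?_
  rw [coeff_C_mul, C_mul]
  ring

/-! ### Moebius transformations -/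

lemma den_ne {a b c d : ℚ} (hdet : 0 < a * d - b * c) {z : ℂ} (hz : 0 < z.im) :
    (c : ℂ) * z + d ≠ 0 := by
  intro h
  have h1 := congrArg Complex.im h
  have h2 := congrArg Complex.re h
  simp at h1 h2
  rcases h1 with h1 | h1
  · rw [h1] at h2 hdet
    simp at h2
    rw [h2] at hdet
    simp at hdet
  · exact hz.ne' h1

lemma im_moeb {a b c d : ℚ} (hdet : 0 < a * d - b * c) {z : ℂ} (hz : 0 < z.im) :
    0 < (((a : ℂ) * z + b) / ((c : ℂ) * z + d)).im := by
  have h0 := den_ne hdet hz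
  have h1 : 0 < Complex.normSq ((c : ℂ) * z + d) := Complex.normSq_pos.2 h0
  have h2 : (((a : ℂ) * z + b) / ((c : ℂ) * z + d)).im =
      ((a * d - b * c : ℚ) : ℝ) * z.im / Complex.normSq ((c : ℂ) * z + d) := by
    rw [Complex.div_im]
    simp only [Complex.add_im, Complex.mul_im, Complex.add_re, Complex.mul_re, Complex.ratCast_re,
      Complex.ratCast_im]
    push_cast
    field_simp
    ring
  rw [h2]
  have h3 : (0 : ℝ) < ((a * d - b * c : ℚ) : ℝ) := by exact_mod_cast hdet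
  positivity

lemma moeb_deriv {a b c d : ℚ} {z : ℂ} (h0 : (c : ℂ) * z + d ≠ 0) :
    HasDerivAt (fun z : ℂ => ((a : ℂ) * z + b) / ((c : ℂ) * z + d))
      (((a * d - b * c : ℚ) : ℂ) / ((c : ℂ) * z + d) ^ 2) z := by
  have h4 : HasDerivAt (fun z : ℂ => (a : ℂ) * z + b) a z := by
    simpa using ((hasDerivAt_id z).const_mul (a : ℂ)).add_const (b : ℂ)
  have h5 : HasDerivAt (fun z : ℂ => (c : ℂ) * z + d) c z := by
    simpa using ((hasDerivAt_id z).const_mul (c : ℂ)).add_const (d : ℂ)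
  refine (h4.div h5 h0).congr_deriv ?_
  congr 1
  push_cast
  ring

/-- **The transformation of the primitives.** -/
theorem trans {s : ℕ → ℂ} (h : Gr s) {K : ℕ} (hK : 0 < K) {a b c d : ℚ}
    (hdet : 0 < a * d - b * c) {lam : ℂ}
    (hf : ∀ z : ℂ, 0 < z.im → ser s (((a : ℂ) * z + b) / ((c : ℂ) * z + d)) *
      ((a * d - b * c : ℚ) : ℂ) = lam * ((c : ℂ) * z + d) ^ (K + 1) * ser s z)
    {P : ℚ[X]} (hP : P.natDegree < K) :
    ∃ C : ℂ, ∀ z : ℂ, 0 < z.im → Gp s K (PC P) (((a : ℂ) * z + b) / ((c : ℂ) * z + d)) =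
      lam * Gp s K (PC (act K a b c d P)) z + C := by
  have hopen : IsOpen {z : ℂ | 0 < z.im} := isOpen_lt continuous_const Complex.continuous_im
  have hP' : (PC P).natDegree < K := by rwa [PC_natDegree]
  have hA : (PC (act K a b c d P)).natDegree < K := by
    rw [PC_natDegree]
    exact act_deg hK _ _ _ _ _
  have hder : ∀ z : ℂ, 0 < z.im → HasDerivAt (fun z =>
      Gp s K (PC P) (((a : ℂ) * z + b) / ((c : ℂ) * z + d)) -
        lam * Gp s K (PC (act K a b c d P)) z) 0 z := by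
    intro z hz
    have h0 := den_ne hdet hz
    have h1 := Gp_deriv h hP' (im_moeb hdet hz)
    have h2 := (h1.comp z (moeb_deriv h0)).sub ((Gp_deriv h hA hz).const_mul lam)
    refine h2.congr_deriv ?_
    rw [act_eval hP h0]
    have h3 := hf z hz
    have h4 : ((c : ℂ) * z + d) ^ (K + 1) = ((c : ℂ) * z + d) ^ (K - 1) * ((c : ℂ) * z + d) ^ 2 := by
      rw [← pow_add]
      congr 1
      omega
    rw [h4] at h3
    generalize ((PC P).eval (((a : ℂ) * z + b) / ((c : ℂ) * z + d))) = E at *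
    generalize ser s (((a : ℂ) * z + b) / ((c : ℂ) * z + d)) = S at *
    generalize ((a * d - b * c : ℚ) : ℂ) = D at *
    generalize ((c : ℂ) * z + d) = w at *
    have h5 : w ^ 2 ≠ 0 := pow_ne_zero _ h0
    rw [mul_div_assoc', sub_eq_zero, div_eq_iff h5]
    linear_combination (-E) * h3
  refine ⟨Gp s K (PC P) (((a : ℂ) * Complex.I + b) / ((c : ℂ) * Complex.I + d)) -
    lam * Gp s K (PC (act K a b c d P)) Complex.I, fun z hz => ?_⟩
  have h8 := hopen.is_const_of_deriv_eq_zero (convex_halfSpace_im_gt 0).isPreconnected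
    (fun w hw => (hder w hw).differentiableAt.differentiableWithinAt) (fun w hw => (hder w hw).deriv)
    hz (show (0 : ℝ) < Complex.I.im by simp)
  exact sub_eq_iff_eq_add'.1 h8

end Pool.Agent.K4H15.GM
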