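import Pool.Agent.K4H15.GM.Lf

/-!
# Project GM: the functional equation of the twists
-/

set_option autoImplicit false

open Complex Filter Topology Set Polynomial MatrixGroups CongruenceSubgroup ZMod MeasureTheory

namespace Pool.Agent.K4H15.GM

open Pool.Agent.W108.TW Pool.Agent.W440.TW

/-- the values of the form near two cusps -/
theorem cusp_rel {N : ℕ} [NeZero N] {m : ℕ} {s : ℕ → ℂ} {ε : ℂ} (h : Md N m s ε) {q : ℕ}
    (hq : 0 < q) {u v d : ℤ} (hd1 : d * q - N * u * v = 1) {T : ℝ} (hT0 : 0 < T) :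
    ser s ((u : ℂ) / q + ((1 / (N * q ^ 2 * T) : ℝ) : ℂ) * Complex.I) =
      ε * (N * (q : ℂ) ^ 2) ^ m * (T : ℂ) ^ (2 * m) * ser s ((v : ℂ) / q + (T : ℂ) * Complex.I) := by
  have hN : (0 : ℝ) < N := Nat.cast_pos.2 (Nat.pos_of_ne_zero (NeZero.ne N))
  have hNc : (N : ℂ) ≠ 0 := Nat.cast_ne_zero.2 (NeZero.ne N)
  have hq0 : (0 : ℝ) < q := Nat.cast_pos.2 hq
  have hqc : (q : ℂ) ≠ 0 := Nat.cast_ne_zero.2 hq.ne'
  let γ : SL(2, ℤ) := ⟨!![d, u; (N : ℤ) * v, q], by
    rw [Matrix.det_fin_two_of]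
    linear_combination hd1⟩
  have hγ : γ ∈ Gamma0 N := by
    rw [Gamma0_mem]
    simp [γ]
  have hdc : (d : ℂ) * q - (N : ℂ) * u * v = 1 := by exact_mod_cast hd1
  set z' : ℂ := (v : ℂ) / q + (T : ℂ) * Complex.I with hz'
  have hTc : (T : ℂ) ≠ 0 := Complex.ofReal_ne_zero.2 hT0.ne'
  have hz'im : z'.im = T := by
    rw [hz', show ((v : ℂ) / q) = (((v : ℝ) / (q : ℝ) : ℝ) : ℂ) by push_cast; rfl]
    simp
  have hz'0 : z' ≠ 0 := by
    intro h
    rw [h] at hz'im
    simp at hz'im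
    linarith
  have hw : 0 < (-1 / ((N : ℂ) * z')).im := by
    have := im_moeb (a := 0) (b := -1) (c := N) (d := 0) (by
      have : (0 : ℚ) < N := Nat.cast_pos.2 (Nat.pos_of_ne_zero (NeZero.ne N))
      linarith) (z := z') (by rw [hz'im]; exact hT0)
    push_cast at this
    rwa [zero_mul, zero_add, add_zero] at this
  have hI : Complex.I ^ 2 = -1 := Complex.I_sq
  have h5 : (N : ℂ) * z' * (-1 / (N * z')) = -1 := by
    field_simp
  have h6 : z' * q = v + T * Complex.I * q := by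
    rw [hz']
    field_simp
  have hj' : jm γ (-1 / (N * z')) = (N : ℂ) * v * (-1 / (N * z')) + q := by
    unfold jm
    simp [γ]
  have h7 : (N : ℂ) * v * (-1 / (N * z')) + q = -(N * q * T * Complex.I * (-1 / (N * z'))) := by
    linear_combination (-(N : ℂ) * (-1 / (N * z'))) * h6 + (q : ℂ) * h5
  have e3 : (u : ℂ) / q + ((1 / (N * q ^ 2 * T) : ℝ) : ℂ) * Complex.I = mo γ (-1 / (N * z')) := by
    have hj := jm_ne γ hw
    have hm' : mo γ (-1 / (N * z')) = ((d : ℂ) * (-1 / (N * z')) + u) / jm γ (-1 / (N * z')) := by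
      unfold mo jm
      simp [γ]
    rw [hm', eq_div_iff hj, hj', h7]
    set x : ℂ := -1 / (N * z') with hx
    push_cast
    have h8 : ((u : ℂ) / q + 1 / (N * q ^ 2 * T) * Complex.I) * -(N * q * T * Complex.I * x) =
        -(u * N * T * Complex.I * x) - Complex.I ^ 2 * x / q := by
      field_simp
      ring
    rw [h8, hI]
    apply mul_right_cancel₀ hqc
    have h9 : (-(u * N * T * Complex.I * x) - -1 * x / q) * (q : ℂ) =
        -(u * N * T * Complex.I * x * q) + x := by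
      field_simp
      ring
    rw [h9]
    linear_combination (-(x : ℂ)) * hdc - (u : ℂ) * h7
  have h10 : jm γ (-1 / (N * z')) * z' = q * T * Complex.I := by
    rw [hj', h7]
    linear_combination (-(q : ℂ) * T * Complex.I) * h5
  rw [e3, h.gam γ hγ _ hw, h.fr z' (by rw [hz'im]; exact hT0)]
  have h11 : (jm γ (-1 / (N * z')) * z') ^ (2 * m) = (-1) ^ m * ((q : ℂ) ^ 2) ^ m * (T : ℂ) ^ (2 * m) := by
    rw [h10, mul_pow, mul_pow, pow_mul Complex.I, hI, pow_mul (q : ℂ)]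
    ring
  have h12 : ((-1 : ℂ) ^ m) * (-1) ^ m = 1 := by
    rw [← mul_pow]
    norm_num
  calc jm γ (-1 / (N * z')) ^ (2 * m) * (ε * (-1) ^ m * N ^ m * z' ^ (2 * m) * ser s z')
      = (jm γ (-1 / (N * z')) * z') ^ (2 * m) * (ε * (-1) ^ m * N ^ m * ser s z') := by
        rw [mul_pow]
        ring
    _ = ((-1 : ℂ) ^ m * (-1) ^ m) * (ε * (N ^ m * ((q : ℂ) ^ 2) ^ m) * (T : ℂ) ^ (2 * m) * ser s z') := by
        rw [h11]
        ring
    _ = _ := by rw [h12, one_mul, mul_pow]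

/-- the root number -/
noncomputable def rn {q : ℕ} [NeZero q] (N : ℕ) (ε : ℂ) (χ : DirichletCharacter ℂ q) : ℂ :=
  ε * χ (-(N : ZMod q)) * gaussSum χ (stdAddChar (N := q)) / gaussSum χ⁻¹ (stdAddChar (N := q))

/-- the theta relation -/
theorem theta {N : ℕ} [NeZero N] {m : ℕ} {s : ℕ → ℂ} {ε : ℂ} (h : Md N m s ε) {q : ℕ} [NeZero q]
    (χ : DirichletCharacter ℂ q) (hχ : χ.IsPrimitive) (hco : q.Coprime N) {T : ℝ} (hT : 0 < T) :
    Th (fun n => χ (n : ZMod q) * s n) (2 * Real.pi) (1 / (N * q ^ 2 * T)) =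
      rn N ε χ * (N * (q : ℂ) ^ 2) ^ m * (T : ℂ) ^ (2 * m) *
        Th (fun n => χ⁻¹ (n : ZMod q) * s n) (2 * Real.pi) T := by
  have hN : (0 : ℝ) < N := Nat.cast_pos.2 (Nat.pos_of_ne_zero (NeZero.ne N))
  have hq : 0 < q := Nat.pos_of_ne_zero (NeZero.ne q)
  have hq0 : (0 : ℝ) < q := Nat.cast_pos.2 hq
  have hχi := inv_primitive χ hχ
  have hg0' : gaussSum χ⁻¹ (stdAddChar (N := q)) ≠ 0 := gauss_ne_zero χ⁻¹ hχi
  have h1 := tw_ser h.gr χ⁻¹ hχi (y := 1 / (N * q ^ 2 * T)) (by positivity)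
  have h2 := tw_ser h.gr χ hχ hT
  rw [inv_inv] at h1
  let n0 : (ZMod q)ˣ := ZMod.unitOfCoprime N hco.symm
  have hn0 : (n0 : ZMod q) = N := ZMod.coe_unitOfCoprime _ _
  have key : ∑ u : (ZMod q)ˣ, χ⁻¹ (u : ZMod q) * ser s ((((u : ZMod q).val : ℤ) : ℂ) / q +
        ((1 / (N * q ^ 2 * T) : ℝ) : ℂ) * Complex.I) =
      ε * (N * (q : ℂ) ^ 2) ^ m * (T : ℂ) ^ (2 * m) * χ ((-n0 : (ZMod q)ˣ) : ZMod q) *
      ∑ u : (ZMod q)ˣ, χ (u : ZMod q) *
        ser s ((((u : ZMod q).val : ℤ) : ℂ) / q + (T : ℂ) * Complex.I) := by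
    rw [← Equiv.sum_comp ((Equiv.mulLeft (-n0)).trans (Equiv.inv (ZMod q)ˣ))
      (fun u : (ZMod q)ˣ => χ (u : ZMod q) *
        ser s ((((u : ZMod q).val : ℤ) : ℂ) / q + (T : ℂ) * Complex.I)), Finset.mul_sum]
    apply Finset.sum_congr rfl
    intro u _
    simp only [Equiv.trans_apply, Equiv.coe_mulLeft, Equiv.inv_apply]
    set v : (ZMod q)ˣ := (-n0 * u)⁻¹ with hv
    have hdvd : (q : ℤ) ∣ (N * ((u : ZMod q).val : ℤ) * ((v : ZMod q).val : ℤ) + 1) := by
      rw [← ZMod.intCast_zmod_eq_zero_iff_dvd]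
      push_cast
      rw [ZMod.natCast_zmod_val, ZMod.natCast_zmod_val, ← hn0, ← Units.val_mul, ← Units.val_mul]
      have h4 : n0 * u * v = -1 := by
        rw [hv, mul_inv_rev]
        rw [show (-n0 : (ZMod q)ˣ)⁻¹ = -(n0⁻¹) from inv_neg ..]
        rw [mul_neg, mul_neg]
        group
      rw [h4]
      simp
    obtain ⟨d, hd⟩ := hdvd
    rw [cusp_rel h hq (u := ((u : ZMod q).val : ℤ)) (v := ((v : ZMod q).val : ℤ)) (d := d)
      (by linarith) hT]
    have h5 : χ⁻¹ (u : ZMod q) = χ ((-n0 : (ZMod q)ˣ) : ZMod q) * χ (v : ZMod q) := by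
      rw [← map_mul, ← Units.val_mul, MulChar.inv_apply_eq_inv']
      have h6 : -n0 * v = u⁻¹ := by
        rw [hv, mul_inv_rev]
        rw [mul_comm u⁻¹, mul_inv_cancel_left]
      rw [h6]
      apply inv_eq_of_mul_eq_one_left
      rw [← map_mul, ← Units.val_mul, inv_mul_cancel, Units.val_one, map_one]
    rw [h5]
    ring
  rw [key, h2, Units.val_neg, hn0] at h1
  apply mul_left_cancel₀ hg0'
  rw [← h1]
  unfold rn
  field_simp

lemma rn_ne {q : ℕ} [NeZero q] {N : ℕ} (hco : q.Coprime N) {ε : ℂ} (hε : ε ≠ 0)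
    {χ : DirichletCharacter ℂ q} (hχ : χ.IsPrimitive) : rn N ε χ ≠ 0 := by
  have h1 : χ (-(N : ZMod q)) ≠ 0 := by
    have h2 : (-(N : ZMod q)) = ((-(ZMod.unitOfCoprime N hco.symm) : (ZMod q)ˣ) : ZMod q) := by
      rw [Units.val_neg, ZMod.coe_unitOfCoprime]
    rw [h2]
    intro h3
    have h4 := χ.unit_norm_eq_one (-(ZMod.unitOfCoprime N hco.symm))
    rw [h3, norm_zero] at h4
    exact zero_ne_one h4
  exact div_ne_zero (mul_ne_zero (mul_ne_zero hε h1) (gauss_ne_zero χ hχ))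
    (gauss_ne_zero χ⁻¹ (inv_primitive χ hχ))

/-- the `L`-function, its values and the functional equation -/
theorem lfun {m : ℕ} {b b' : ℕ → ℂ} (hbb : ∀ n, b' n = (starRingEnd ℂ) (b n)) (hb0 : b 0 = 0)
    {C : ℝ} (hb : ∀ n : ℕ, 1 ≤ n → ‖b n‖ ≤ C * (n : ℝ) ^ (m : ℝ)) (hm : 1 ≤ m)
    {Q : ℝ} (hQ : 0 < Q) {w : ℂ} (hw : w ≠ 0)
    (hfe : ∀ T : ℝ, 0 < T → Th b (2 * Real.pi) (1 / (Q ^ 2 * T)) =
      w * ((Q ^ 2) ^ m : ℝ) * (T : ℂ) ^ (2 * m) * Th b' (2 * Real.pi) T) :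
    ∃ L : ℂ → ℂ, Differentiable ℂ L ∧ (∀ s : ℂ, (m : ℝ) + 1 < s.re →
      HasSum (fun n : ℕ => b n * (n : ℂ) ^ (-s)) (L s)) ∧
      (∀ s : ℂ, MellinConvergent (Th b (2 * Real.pi)) s) ∧
      (∀ s : ℂ, 0 < s.re → Complex.Gamma s * L s =
        ((2 * Real.pi : ℝ) : ℂ) ^ s * mellin (Th b (2 * Real.pi)) s) ∧
      (∀ j : ℕ, 1 ≤ j → j < 2 * m → mellin (Th b (2 * Real.pi)) ((2 * m - j : ℕ) : ℂ) =
        w * ((Q ^ 2 : ℝ) : ℂ) ^ ((j : ℤ) - m) *
          (starRingEnd ℂ) (mellin (Th b (2 * Real.pi)) (j : ℂ))) := by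
  have hb' : ∀ n : ℕ, 1 ≤ n → ‖b' n‖ ≤ C * (n : ℝ) ^ (m : ℝ) := by
    intro n hn; rw [hbb, RCLike.norm_conj]; exact hb n hn
  have hb0' : b' 0 = 0 := by rw [hbb, hb0, map_zero]
  have hpi := Real.pi_pos
  set c : ℝ := 2 * Real.pi / Q with hc'
  have hc : 0 < c := by positivity
  have hQc : (Q : ℂ) ≠ 0 := Complex.ofReal_ne_zero.2 hQ.ne'
  have hsc : ∀ (b : ℕ → ℂ) (t : ℝ), Th b c t = Th b (2 * Real.pi) (t * Q⁻¹) := by
    intro b t
    unfold Th
    refine tsum_congr fun n => ?_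
    congr 3
    rw [hc']
    field_simp
  have hsc2 : ∀ (b : ℕ → ℂ) (t : ℝ), Th b (2 * Real.pi) t = Th b c (t * Q) := by
    intro b t
    rw [hsc]
    congr 1
    field_simp
  let P : WeakFEPair ℂ :=
    { f := Th b c
      g := Th b' c
      k := (2 * m : ℝ)
      ε := w
      f₀ := 0
      g₀ := 0
      hf_int := (continuousOn_Th hb0 hb hc).locallyIntegrableOn measurableSet_Ioi
      hg_int := (continuousOn_Th hb0' hb' hc).locallyIntegrableOn measurableSet_Ioi
      hk := by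
        have : (1 : ℝ) ≤ m := by exact_mod_cast hm
        linarith
      hε := hw
      h_feq := by
        intro x (hx : 0 < x)
        have h := hfe (x * Q⁻¹) (by positivity)
        rw [smul_eq_mul, hsc, hsc]
        have e1 : 1 / x * Q⁻¹ = 1 / (Q ^ 2 * (x * Q⁻¹)) := by
          field_simp
        rw [e1, h]
        have e2 : x ^ (2 * m : ℝ) = x ^ (2 * m) := by
          rw [← Real.rpow_natCast]
          push_cast
          rfl
        rw [e2]
        have h3 : (Q : ℂ) ^ (2 * m) ≠ 0 := pow_ne_zero _ hQc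
        have h4 : (((Q ^ 2) ^ m : ℝ) : ℂ) * ((x * Q⁻¹ : ℝ) : ℂ) ^ (2 * m) = ((x ^ (2 * m) : ℝ) : ℂ) := by
          push_cast
          rw [mul_pow, ← pow_mul, inv_pow]
          field_simp
        rw [mul_assoc w, h4]
      hf_top := Th_isBigO hb0 hb hc
      hg_top := Th_isBigO hb0' hb' hc }
  have hP : IsStrongFEPair P := ⟨rfl, rfl⟩
  have hΛf : P.Λ = mellin (Th b c) := hP.Λ_eq
  have hΛg : P.symm.Λ = mellin (Th b' c) := hP.symm_Λ_eq
  have hMs : ∀ s : ℂ, mellin (Th b c) s = (Q : ℂ) ^ s * mellin (Th b (2 * Real.pi)) s := by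
    intro s
    have h1 : Th b c = fun t => Th b (2 * Real.pi) (t * Q⁻¹) := funext (hsc b)
    rw [h1, mellin_comp_mul_right _ _ (inv_pos.2 hQ), smul_eq_mul]
    congr 1
    have harg : (Q : ℂ).arg ≠ Real.pi := by
      rw [Complex.arg_ofReal_of_nonneg hQ.le]; exact hpi.ne
    rw [Complex.ofReal_inv, Complex.inv_cpow _ _ harg, Complex.cpow_neg, inv_inv]
  have hcv : ∀ s : ℂ, MellinConvergent (Th b (2 * Real.pi)) s := by
    intro s
    have h1 : MellinConvergent (Th b c) s := (hP.hasMellin s).1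
    have h2 : Th b (2 * Real.pi) = fun t => Th b c (Q * t) := by
      funext t
      rw [hsc2 b t, mul_comm]
    rw [h2]
    exact (MellinConvergent.comp_mul_left hQ).2 h1
  have hcC : (c : ℂ) ≠ 0 := by exact_mod_cast hc.ne'
  let L : ℂ → ℂ := fun s => P.Λ s * (c : ℂ) ^ s * (Complex.Gamma s)⁻¹
  have hLd : Differentiable ℂ L := by
    have h1 : Differentiable ℂ (fun s : ℂ => P.Λ s) := hP.differentiable_Λ
    have h2 : Differentiable ℂ (fun s : ℂ => (c : ℂ) ^ s) := by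
      intro s
      exact (DifferentiableAt.const_cpow (by fun_prop) (Or.inl hcC))
    exact (h1.mul h2).mul Complex.differentiable_one_div_Gamma
  refine ⟨L, hLd, ?_, hcv, ?_, ?_⟩
  · intro s hs
    have hmr : (0 : ℝ) ≤ m := Nat.cast_nonneg m
    have hSpos : 0 < s.re := by linarith
    have hG : Complex.Gamma s ≠ 0 := Complex.Gamma_ne_zero_of_re_pos hSpos
    have h1 := hasSum_mellin (a := b) (p := fun n : ℕ => c * n) (F := Th b c) (s := s)
      (by
        intro n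
        rcases Nat.eq_zero_or_pos n with rfl | hn
        · exact Or.inl hb0
        · right
          have : (0 : ℝ) < n := by exact_mod_cast hn
          positivity) hSpos
      (by
        intro t (ht : 0 < t)
        exact (summable_term hb0 hb hc ht).hasSum)
      (by
        have h2 : Summable (fun n : ℕ => |C| / c ^ s.re * (n : ℝ) ^ ((m : ℝ) - s.re)) :=
          (Real.summable_nat_rpow.mpr (by linarith)).mul_left _
        refine Summable.of_nonneg_of_le (fun n => by positivity) (fun n => ?_) h2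
        rcases Nat.eq_zero_or_pos n with rfl | hn
        · rw [hb0, norm_zero, zero_div]; positivity
        · have hn' : (0 : ℝ) < n := by exact_mod_cast hn
          have h3 : ‖b n‖ ≤ |C| * (n : ℝ) ^ (m : ℝ) :=
            (hb n hn).trans (mul_le_mul_of_nonneg_right (le_abs_self C) (by positivity))
          rw [Real.mul_rpow hc.le hn'.le, Real.rpow_sub hn', div_mul_div_comm]
          exact div_le_div_of_nonneg_right h3 (by positivity))
    have h2 := (h1.mul_right ((c : ℂ) ^ s)).mul_right (Complex.Gamma s)⁻¹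
    have hcs : (c : ℂ) ^ s ≠ 0 := by
      rw [Complex.cpow_def_of_ne_zero hcC]; exact Complex.exp_ne_zero _
    have h3 : L s = mellin (Th b c) s * (c : ℂ) ^ s * (Complex.Gamma s)⁻¹ := by
      simp only [L]
      rw [hΛf]
    rw [h3]
    refine (congrArg (fun f => HasSum f _) (funext fun n => ?_)).mp h2
    rcases Nat.eq_zero_or_pos n with rfl | hn
    · rw [hb0]; simp
    · have hn' : (n : ℂ) ≠ 0 := by exact_mod_cast hn.ne'
      have hnS : (n : ℂ) ^ s ≠ 0 := by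
        rw [Complex.cpow_def_of_ne_zero hn']; exact Complex.exp_ne_zero _
      rw [Complex.ofReal_mul, Complex.mul_cpow_ofReal_nonneg hc.le (Nat.cast_nonneg n),
        Complex.cpow_neg]
      simp only [Complex.ofReal_natCast]
      field_simp
  · intro s hs
    have hG : Complex.Gamma s ≠ 0 := Complex.Gamma_ne_zero_of_re_pos hs
    have h3 : L s = mellin (Th b c) s * (c : ℂ) ^ s * (Complex.Gamma s)⁻¹ := by
      simp only [L]
      rw [hΛf]
    rw [h3, hMs]
    have h4 : (Q : ℂ) ^ s * (c : ℂ) ^ s = ((2 * Real.pi : ℝ) : ℂ) ^ s := by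
      rw [← Complex.mul_cpow_ofReal_nonneg hQ.le hc.le, ← Complex.ofReal_mul]
      congr 2
      rw [hc']
      field_simp
    rw [← h4]
    field_simp
  · intro j hj1 hj2
    have h1 := P.functional_equation (j : ℂ)
    have hPk : (P.k : ℂ) - j = ((2 * m - j : ℕ) : ℂ) := by
      have : (P.k : ℂ) = 2 * m := by
        show (((2 * m : ℝ)) : ℂ) = _
        push_cast
        rfl
      rw [this, Nat.cast_sub hj2.le]
      push_cast
      rfl
    rw [hPk, hΛf, hΛg, hMs] at h1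
    have h2 : mellin (Th b' c) (j : ℂ) = (starRingEnd ℂ) (mellin (Th b c) (j : ℂ)) := by
      rw [← mellin_conj]
      have h3 : (starRingEnd ℂ) (j : ℂ) = j := Complex.conj_natCast j
      rw [h3]
      congr 1
      funext t
      have h4 : b' = fun n => (starRingEnd ℂ) (b n) := funext hbb
      rw [h4, Th_conj]
    rw [h2, hMs, map_mul, Complex.cpow_natCast, Complex.cpow_natCast, map_pow,
      Complex.conj_ofReal] at h1
    have hPε : P.ε = w := rfl
    rw [hPε, smul_eq_mul] at h1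
    have h5 : (Q : ℂ) ^ (2 * m - j) ≠ 0 := pow_ne_zero _ hQc
    apply mul_left_cancel₀ h5
    rw [h1]
    have h6 : (Q : ℂ) ^ (2 * m - j) * ((Q ^ 2 : ℝ) : ℂ) ^ ((j : ℤ) - m) = (Q : ℂ) ^ j := by
      rw [← zpow_natCast, ← zpow_natCast (Q : ℂ) j, Complex.ofReal_pow, ← zpow_natCast (Q : ℂ) 2,
        ← zpow_mul, ← zpow_add₀ hQc, Nat.cast_sub hj2.le]
      congr 1
      push_cast
      ring
    rw [← h6]
    ring

end Pool.Agent.K4H15.GM
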