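import Pool.Agent.K4H15.GM.Cusp
import Pool.Agent.W108.TW.Mellin

/-!
# Project GM: the twists and the moments of the form at the cusps
-/

set_option autoImplicit false

open Complex Filter Topology Set Polynomial MatrixGroups CongruenceSubgroup ZMod MeasureTheory

namespace Pool.Agent.K4H15.GM

open Pool.Agent.W108.TW Pool.Agent.W440.TW

/-- the Gauss sum trick -/
theorem tw_ser {s : ℕ → ℂ} (h : Gr s) {q : ℕ} [NeZero q] (χ : DirichletCharacter ℂ q)
    (hχ : χ.IsPrimitive) {y : ℝ} (hy : 0 < y) :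
    ∑ u : (ZMod q)ˣ, χ (u : ZMod q) *
      ser s ((((u : ZMod q).val : ℤ) : ℂ) / q + (y : ℂ) * Complex.I) =
    gaussSum χ (stdAddChar (N := q)) * Th (fun n => χ⁻¹ (n : ZMod q) * s n) (2 * Real.pi) y := by
  have hq : (q : ℂ) ≠ 0 := Nat.cast_ne_zero.2 (NeZero.ne q)
  have him : ∀ u : ℤ, ((u : ℂ) / q + (y : ℂ) * Complex.I).im = y := by
    intro u
    rw [show ((u : ℂ) / q) = (((u : ℝ) / (q : ℝ) : ℝ) : ℂ) by push_cast; rfl]
    simp
  have h1 : HasSum (fun n : ℕ => ∑ u : (ZMod q)ˣ, χ (u : ZMod q) * (s n *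
      Complex.exp (2 * Real.pi * Complex.I * n *
        ((((u : ZMod q).val : ℤ) : ℂ) / q + (y : ℂ) * Complex.I))))
      (∑ u : (ZMod q)ˣ, χ (u : ZMod q) *
        ser s ((((u : ZMod q).val : ℤ) : ℂ) / q + (y : ℂ) * Complex.I)) := by
    apply hasSum_sum
    intro u _
    exact ((h.summable (by rw [him]; exact hy)).hasSum).mul_left _
  rw [← h1.tsum_eq]
  unfold Th
  rw [← tsum_mul_left]
  refine tsum_congr fun n => ?_
  have h2 := gaussSum_mulShift_of_isPrimitive (stdAddChar (N := q)) hχ (n : ZMod q)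
  have h3 : gaussSum χ (stdAddChar.mulShift (n : ZMod q)) =
      ∑ u : (ZMod q)ˣ, χ (u : ZMod q) * stdAddChar ((n : ZMod q) * (u : ZMod q)) := by
    unfold gaussSum
    simp only [AddChar.mulShift_apply]
    symm
    apply Finset.sum_of_injOn (fun u : (ZMod q)ˣ => (u : ZMod q))
    · intro a _ b _ hab
      exact Units.ext hab
    · intro a _
      simp
    · intro a _ ha
      rw [MulChar.map_nonunit _ (fun hu => ha ⟨hu.unit, by simp, by simp⟩), zero_mul]
    · intro a _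
      rfl
  rw [h3] at h2
  have h4 : gaussSum χ (stdAddChar (N := q)) * (χ⁻¹ (n : ZMod q) * s n *
      (Real.exp (-(2 * Real.pi * n) * y) : ℂ)) =
      (χ⁻¹ (n : ZMod q) * gaussSum χ (stdAddChar (N := q))) *
      (s n * (Real.exp (-(2 * Real.pi * n) * y) : ℂ)) := by ring
  show _ = gaussSum χ (stdAddChar (N := q)) * (χ⁻¹ (n : ZMod q) * s n *
      (Real.exp (-(2 * Real.pi * n) * y) : ℂ))
  rw [h4, ← h2, Finset.sum_mul]
  apply Finset.sum_congr rfl
  intro u _
  have h5 : (n : ZMod q) * (u : ZMod q) = ((((n : ℤ) * ((u : ZMod q).val : ℤ) : ℤ)) : ZMod q) := by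
    push_cast
    rw [ZMod.natCast_zmod_val]
  rw [h5, stdAddChar_coe]
  have h6 : Complex.exp (2 * Real.pi * Complex.I * n *
        ((((u : ZMod q).val : ℤ) : ℂ) / q + (y : ℂ) * Complex.I)) =
      Complex.exp (2 * Real.pi * Complex.I * (((n : ℤ) * ((u : ZMod q).val : ℤ) : ℤ) : ℂ) / (q : ℕ)) *
        (Real.exp (-(2 * Real.pi * n) * y) : ℂ) := by
    rw [Complex.ofReal_exp, ← Complex.exp_add]
    congr 1
    push_cast
    field_simp
    linear_combination (n * q * y : ℂ) * Complex.I_sq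
  rw [h6]
  ring

/-- the polynomial `(X - r) ^ j` -/
lemma lin_deg (r : ℚ) (j : ℕ) : ((X - C r : ℚ[X]) ^ j).natDegree ≤ j := by
  refine (natDegree_pow_le).trans ?_
  rw [natDegree_X_sub_C, mul_one]

lemma lin_eval (r : ℚ) (j : ℕ) (z : ℂ) : (PC ((X - C r) ^ j)).eval z = (z - (r : ℂ)) ^ j := by
  unfold PC
  simp only [Polynomial.map_pow, Polynomial.map_sub, Polynomial.map_X, Polynomial.map_C, eval_pow,
    eval_sub, eval_X, eval_C]
  rfl

lemma mellin_int {f : ℝ → ℂ} {j : ℕ} (hj : 1 ≤ j) :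
    mellin f (j : ℂ) = ∫ t : ℝ in Ioi 0, (t : ℂ) ^ (j - 1) * f t := by
  rw [mellin]
  refine setIntegral_congr_fun measurableSet_Ioi fun t _ => ?_
  simp only [smul_eq_mul]
  congr 1
  rw [show ((j : ℂ) - 1) = ((j - 1 : ℕ) : ℂ) by rw [Nat.cast_sub hj, Nat.cast_one],
    Complex.cpow_natCast]

/-- **The values in terms of the limits at the cusps.** -/
theorem link {m : ℕ} {s : ℕ → ℂ} (hgr : Gr s) {j q : ℕ} [NeZero q] (hj1 : 1 ≤ j) (hj2 : j < 2 * m)
    (χ : DirichletCharacter ℂ q) (hχ : χ.IsPrimitive)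
    (hconv : MellinConvergent (Th (fun n => χ⁻¹ (n : ZMod q) * s n) (2 * Real.pi)) j)
    {c : (ZMod q)ˣ → ℂ} (hc2 : ∀ u : (ZMod q)ˣ, Tendsto (fun y : ℝ =>
      Gp s (2 * m - 1) (PC ((X - C (((u : ZMod q).val : ℚ) / q)) ^ (j - 1)))
        ((((u : ZMod q).val : ℤ) : ℂ) / q + (y : ℂ) * Complex.I)) (𝓝[>] 0) (𝓝 (c u))) :
    Complex.I ^ j * gaussSum χ (stdAddChar (N := q)) *
      mellin (Th (fun n => χ⁻¹ (n : ZMod q) * s n) (2 * Real.pi)) j =
      ∑ u : (ZMod q)ˣ, χ (u : ZMod q) * c u := by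
  classical
  have hq : 0 < q := Nat.pos_of_ne_zero (NeZero.ne q)
  have hqc : (q : ℂ) ≠ 0 := Nat.cast_ne_zero.2 (NeZero.ne q)
  set K : ℕ := 2 * m - 1 with hK
  set g := gaussSum χ (stdAddChar (N := q)) with hg
  set H : ℝ → ℂ := Th (fun n => χ⁻¹ (n : ZMod q) * s n) (2 * Real.pi) with hH
  set P : (ZMod q)ˣ → ℚ[X] := fun u => (X - C (((u : ZMod q).val : ℚ) / q)) ^ (j - 1) with hP
  have hPd : ∀ u, (PC (P u)).natDegree < K := by
    intro u
    rw [PC_natDegree]
    exact lt_of_le_of_lt (lin_deg _ _) (by omega)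
  set zz : (ZMod q)ˣ → ℝ → ℂ := fun u y =>
    (((u : ZMod q).val : ℤ) : ℂ) / q + (y : ℂ) * Complex.I with hzz
  have him : ∀ u y, (zz u y).im = y := by
    intro u y
    simp only [hzz]
    rw [show ((((u : ZMod q).val : ℤ) : ℂ) / q) = (((((u : ZMod q).val : ℤ) : ℝ) / (q : ℝ) : ℝ) : ℂ) by
      push_cast; rfl]
    simp
  have hPe : ∀ u y, (PC (P u)).eval (zz u y) = ((y : ℂ) * Complex.I) ^ (j - 1) := by
    intro u y
    simp only [hP, hzz]
    rw [lin_eval]
    congr 1
    push_cast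
    ring
  set F : ℝ → ℂ := fun y => ∑ u : (ZMod q)ˣ, χ (u : ZMod q) * Gp s K (PC (P u)) (zz u y) with hF
  have hder : ∀ y ∈ Ioi (0 : ℝ), HasDerivAt F (-(Complex.I ^ j * g * ((y : ℂ) ^ (j - 1) * H y))) y := by
    intro y (hy : 0 < y)
    have h1 : ∀ u ∈ (Finset.univ : Finset (ZMod q)ˣ), HasDerivAt
        (fun y : ℝ => χ (u : ZMod q) * Gp s K (PC (P u)) (zz u y))
        (χ (u : ZMod q) * (-(ser s (zz u y) * (PC (P u)).eval (zz u y)) * Complex.I)) y := by
      intro u _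
      refine HasDerivAt.const_mul _ ?_
      have h2 := Gp_deriv hgr (hPd u) (z := zz u y) (by rw [him]; exact hy)
      have h3 : HasDerivAt (fun y : ℝ => zz u y) Complex.I y := by
        simp only [hzz]
        have h4 : HasDerivAt (fun y : ℝ => ((y : ℝ) : ℂ)) 1 y := Complex.ofRealCLM.hasDerivAt
        have h5 := (h4.mul_const Complex.I).const_add ((((u : ZMod q).val : ℤ) : ℂ) / q)
        rw [one_mul] at h5
        exact h5
      exact HasDerivAt.comp (h₂ := Gp s K (PC (P u))) y h2 h3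
    refine (HasDerivAt.fun_sum h1).congr_deriv ?_
    have h6 := tw_ser hgr χ hχ hy
    have h7 : ∑ u : (ZMod q)ˣ, χ (u : ZMod q) *
        (-(ser s (zz u y) * (PC (P u)).eval (zz u y)) * Complex.I) =
        -((y : ℂ) * Complex.I) ^ (j - 1) * Complex.I * ∑ u : (ZMod q)ˣ, χ (u : ZMod q) *
          ser s ((((u : ZMod q).val : ℤ) : ℂ) / q + (y : ℂ) * Complex.I) := by
      rw [Finset.mul_sum]
      refine Finset.sum_congr rfl fun u _ => ?_
      rw [hPe]
      simp only [hzz]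
      ring
    rw [h7, h6, mul_pow]
    have h8 : Complex.I ^ j = Complex.I ^ (j - 1) * Complex.I := by
      rw [← pow_succ]
      congr 1
      omega
    rw [h8]
    ring
  have htop : Tendsto F atTop (𝓝 0) := by
    rw [← Finset.sum_const_zero (s := (Finset.univ : Finset (ZMod q)ˣ))]
    refine tendsto_finsetSum _ fun u _ => ?_
    have h2 := (Gp_line hgr K (PC (P u)) (((((u : ZMod q).val : ℤ) : ℝ) / (q : ℝ)))).const_mul
      (χ (u : ZMod q))
    rw [mul_zero] at h2
    refine h2.congr fun T => ?_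
    simp only [hzz]
    push_cast
    rfl
  have hbot : Tendsto F (𝓝[>] 0) (𝓝 (∑ u : (ZMod q)ˣ, χ (u : ZMod q) * c u)) := by
    refine tendsto_finsetSum _ fun u _ => Tendsto.const_mul _ ?_
    exact hc2 u
  set c0 := ∑ u : (ZMod q)ˣ, χ (u : ZMod q) * c u with hc0
  -- the function with its value at zero
  set F0 : ℝ → ℂ := Function.update F 0 c0 with hF0
  have hF0e : ∀ y : ℝ, 0 < y → F0 =ᶠ[𝓝 y] F := by
    intro y hy
    filter_upwards [isOpen_Ioi.mem_nhds (show y ∈ Ioi (0 : ℝ) from hy)] with t (ht : 0 < t)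
    rw [hF0, Function.update_of_ne ht.ne']
  have hcont : ContinuousWithinAt F0 (Ici 0) 0 := by
    rw [← continuousWithinAt_Ioi_iff_Ici, ContinuousWithinAt, hF0, Function.update_self]
    refine hbot.congr' ?_
    filter_upwards [self_mem_nhdsWithin] with t (ht : 0 < t)
    rw [Function.update_of_ne ht.ne']
  have hint : IntegrableOn (fun y : ℝ => -(Complex.I ^ j * g * ((y : ℂ) ^ (j - 1) * H y))) (Ioi 0) := by
    refine Integrable.neg (Integrable.const_mul ?_ _)
    refine IntegrableOn.congr_fun hconv (fun t _ => ?_) measurableSet_Ioi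
    simp only [smul_eq_mul]
    congr 1
    rw [show ((j : ℂ) - 1) = ((j - 1 : ℕ) : ℂ) by rw [Nat.cast_sub hj1, Nat.cast_one],
      Complex.cpow_natCast]
  have hres := integral_Ioi_of_hasDerivAt_of_tendsto hcont
    (fun y hy => (hder y hy).congr_of_eventuallyEq (hF0e y hy)) hint
    (htop.congr' (by
      filter_upwards [eventually_gt_atTop (0 : ℝ)] with t ht
      rw [hF0, Function.update_of_ne ht.ne']))
  rw [hF0, Function.update_self, integral_neg, integral_const_mul, zero_sub, neg_inj] at hres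
  rw [mellin_int hj1, ← hres]

end Pool.Agent.K4H15.GM
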