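import Pool.Agent.K4H15.GM.Eich

/-!
# Project GM: the periods span a finite dimensional rational vector space
-/

set_option autoImplicit false

open Complex Filter Topology Set Polynomial MatrixGroups CongruenceSubgroup

namespace Pool.Agent.K4H15.GM

/-- the action of `γ` on the complex numbers -/
noncomputable def mo (γ : SL(2, ℤ)) (z : ℂ) : ℂ :=
  ((((γ 0 0 : ℤ) : ℚ) : ℂ) * z + (((γ 0 1 : ℤ) : ℚ) : ℂ)) /
    ((((γ 1 0 : ℤ) : ℚ) : ℂ) * z + (((γ 1 1 : ℤ) : ℚ) : ℂ))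

/-- the denominator -/
noncomputable def jm (γ : SL(2, ℤ)) (z : ℂ) : ℂ :=
  (((γ 1 0 : ℤ) : ℚ) : ℂ) * z + (((γ 1 1 : ℤ) : ℚ) : ℂ)

/-- the action of `γ` on the polynomials -/
noncomputable def ag (K : ℕ) (γ : SL(2, ℤ)) (P : ℚ[X]) : ℚ[X] :=
  act K ((γ 0 0 : ℤ) : ℚ) ((γ 0 1 : ℤ) : ℚ) ((γ 1 0 : ℤ) : ℚ) ((γ 1 1 : ℤ) : ℚ) P

lemma det_eq (γ : SL(2, ℤ)) : ((γ 0 0 : ℤ) : ℚ) * ((γ 1 1 : ℤ) : ℚ) -
    ((γ 0 1 : ℤ) : ℚ) * ((γ 1 0 : ℤ) : ℚ) = 1 := by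
  have h1 := Matrix.SpecialLinearGroup.det_coe γ
  rw [Matrix.det_fin_two] at h1
  exact_mod_cast h1

lemma jm_ne (γ : SL(2, ℤ)) {z : ℂ} (hz : 0 < z.im) : jm γ z ≠ 0 :=
  den_ne (by rw [det_eq]; norm_num) hz

lemma mo_im (γ : SL(2, ℤ)) {z : ℂ} (hz : 0 < z.im) : 0 < (mo γ z).im :=
  im_moeb (by rw [det_eq]; norm_num) hz

lemma jm_mul (γ δ : SL(2, ℤ)) {z : ℂ} (hz : 0 < z.im) :
    jm (γ * δ) z = jm γ (mo δ z) * jm δ z := by
  have h := jm_ne δ hz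
  have h1 : ((γ * δ) 1 0 : ℤ) = γ 1 0 * δ 0 0 + γ 1 1 * δ 1 0 := by
    rw [Matrix.SpecialLinearGroup.coe_mul, Matrix.mul_apply, Fin.sum_univ_two]
  have h2 : ((γ * δ) 1 1 : ℤ) = γ 1 0 * δ 0 1 + γ 1 1 * δ 1 1 := by
    rw [Matrix.SpecialLinearGroup.coe_mul, Matrix.mul_apply, Fin.sum_univ_two]
  unfold jm mo at *
  rw [h1, h2]
  push_cast at *
  field_simp
  ring

lemma mo_mul (γ δ : SL(2, ℤ)) {z : ℂ} (hz : 0 < z.im) : mo (γ * δ) z = mo γ (mo δ z) := by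
  have h := jm_ne δ hz
  have h3 := jm_ne (γ * δ) hz
  have h4 := jm_ne γ (mo_im δ hz)
  have h5 := jm_mul γ δ hz
  have h1 : ((γ * δ) 0 0 : ℤ) = γ 0 0 * δ 0 0 + γ 0 1 * δ 1 0 := by
    rw [Matrix.SpecialLinearGroup.coe_mul, Matrix.mul_apply, Fin.sum_univ_two]
  have h2 : ((γ * δ) 0 1 : ℤ) = γ 0 0 * δ 0 1 + γ 0 1 * δ 1 1 := by
    rw [Matrix.SpecialLinearGroup.coe_mul, Matrix.mul_apply, Fin.sum_univ_two]
  have e1 : mo (γ * δ) z = ((((γ * δ) 0 0 : ℤ) : ℚ) * z + ((((γ * δ) 0 1 : ℤ) : ℚ) : ℂ)) / jm (γ * δ) z := rfl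
  have e2 : mo γ (mo δ z) = ((((γ 0 0 : ℤ) : ℚ) : ℂ) * (mo δ z) + (((γ 0 1 : ℤ) : ℚ) : ℂ)) /
    jm γ (mo δ z) := rfl
  have e3 : mo δ z * jm δ z = (((δ 0 0 : ℤ) : ℚ) : ℂ) * z + (((δ 0 1 : ℤ) : ℚ) : ℂ) := by
    unfold mo
    exact div_mul_cancel₀ _ h
  have e4 : jm δ z = (((δ 1 0 : ℤ) : ℚ) : ℂ) * z + (((δ 1 1 : ℤ) : ℚ) : ℂ) := rfl
  rw [e1, e2, h5, div_eq_div_iff (mul_ne_zero h4 h) h4, h1, h2]
  push_cast at *
  linear_combination (-(jm γ (mo δ z)) * (γ 0 0 : ℤ)) * e3 -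
    (jm γ (mo δ z) * (γ 0 1 : ℤ)) * e4

lemma ag_deg {K : ℕ} (hK : 0 < K) (γ : SL(2, ℤ)) (P : ℚ[X]) : (ag K γ P).natDegree < K :=
  act_deg hK _ _ _ _ P

lemma ag_eval {K : ℕ} (γ : SL(2, ℤ)) {P : ℚ[X]} (hP : P.natDegree < K) {z : ℂ} (hz : 0 < z.im) :
    (PC (ag K γ P)).eval z = jm γ z ^ (K - 1) * (PC P).eval (mo γ z) :=
  act_eval hP (jm_ne γ hz)

lemma inf_up : {z : ℂ | 0 < z.im}.Infinite := by
  have h : Function.Injective fun n : ℕ => ((n : ℂ) + Complex.I) := fun a b hab => by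
    simpa using hab
  refine Set.Infinite.mono ?_ (Set.infinite_range_of_injective h)
  rintro _ ⟨n, rfl⟩
  simp

lemma PC_ext {P Q : ℚ[X]} (h : ∀ z : ℂ, 0 < z.im → (PC P).eval z = (PC Q).eval z) : P = Q := by
  have h1 : PC P = PC Q := Polynomial.eq_of_infinite_eval_eq _ _ (inf_up.mono fun z hz => h z hz)
  exact Polynomial.map_injective _ (algebraMap ℚ ℂ).injective h1

lemma ag_mul {K : ℕ} (hK : 0 < K) (γ δ : SL(2, ℤ)) {P : ℚ[X]} (hP : P.natDegree < K) :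
    ag K (γ * δ) P = ag K δ (ag K γ P) := by
  apply PC_ext
  intro z hz
  rw [ag_eval _ hP hz, ag_eval _ (ag_deg hK _ _) hz, ag_eval _ hP (mo_im δ hz), jm_mul γ δ hz,
    mo_mul γ δ hz]
  ring

lemma ag_one {K : ℕ} {P : ℚ[X]} (hP : P.natDegree < K) : ag K 1 P = P := by
  apply PC_ext
  intro z hz
  rw [ag_eval _ hP hz]
  have h1 : jm 1 z = 1 := by unfold jm; simp
  have h2 : mo 1 z = z := by unfold mo; simp
  rw [h1, h2, one_pow, one_mul]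

lemma mo_one (z : ℂ) : mo 1 z = z := by unfold mo; simp

/-- the transformation under `γ`, with constants in `V` -/
def Tr (s : ℕ → ℂ) (K : ℕ) (V : Submodule ℚ ℂ) (γ : SL(2, ℤ)) : Prop :=
  ∀ P : ℚ[X], P.natDegree < K → ∃ c ∈ V, ∀ z : ℂ, 0 < z.im →
    Gp s K (PC P) (mo γ z) = Gp s K (PC (ag K γ P)) z + c

lemma Tr.one (s : ℕ → ℂ) (K : ℕ) (V : Submodule ℚ ℂ) : Tr s K V 1 := by
  intro P hP
  refine ⟨0, V.zero_mem, fun z _ => ?_⟩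
  rw [mo_one, ag_one hP, add_zero]

lemma Tr.mul {s : ℕ → ℂ} {K : ℕ} (hK : 0 < K) {V : Submodule ℚ ℂ} {γ δ : SL(2, ℤ)}
    (h1 : Tr s K V γ) (h2 : Tr s K V δ) : Tr s K V (γ * δ) := by
  intro P hP
  obtain ⟨c1, hc1, e1⟩ := h1 P hP
  obtain ⟨c2, hc2, e2⟩ := h2 (ag K γ P) (ag_deg hK _ _)
  refine ⟨c2 + c1, V.add_mem hc2 hc1, fun z hz => ?_⟩
  rw [mo_mul γ δ hz, e1 _ (mo_im δ hz), e2 z hz, ag_mul hK γ δ hP, add_assoc]

lemma Tr.inv {s : ℕ → ℂ} {K : ℕ} (hK : 0 < K) {V : Submodule ℚ ℂ} {γ : SL(2, ℤ)}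
    (h1 : Tr s K V γ) : Tr s K V γ⁻¹ := by
  intro P hP
  obtain ⟨c1, hc1, e1⟩ := h1 (ag K γ⁻¹ P) (ag_deg hK _ _)
  refine ⟨-c1, V.neg_mem hc1, fun z hz => ?_⟩
  have h2 := e1 (mo γ⁻¹ z) (mo_im _ hz)
  rw [← mo_mul γ γ⁻¹ hz, mul_inv_cancel, mo_one, ← ag_mul hK _ _ hP, inv_mul_cancel, ag_one hP] at h2
  rw [h2]
  ring

/-- the transformation under one matrix -/
lemma Tr.exists {s : ℕ → ℂ} (h : Gr s) {K : ℕ} (hK : 0 < K) {γ : SL(2, ℤ)}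
    (hf : ∀ z : ℂ, 0 < z.im → ser s (mo γ z) = jm γ z ^ (K + 1) * ser s z) :
    ∃ V : Submodule ℚ ℂ, V.FG ∧ Tr s K V γ := by
  have h1 : ∀ j : ℕ, ∃ C : ℂ, j < K → ∀ z : ℂ, 0 < z.im →
      Gp s K (PC (X ^ j)) (mo γ z) = Gp s K (PC (ag K γ (X ^ j))) z + C := by
    intro j
    by_cases hj : j < K
    · obtain ⟨C, hC⟩ := trans h hK (a := ((γ 0 0 : ℤ) : ℚ)) (b := ((γ 0 1 : ℤ) : ℚ))
        (c := ((γ 1 0 : ℤ) : ℚ)) (d := ((γ 1 1 : ℤ) : ℚ)) (by rw [det_eq]; norm_num) (lam := 1)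
        (fun z hz => by
          rw [det_eq, one_mul]
          have := hf z hz
          unfold mo jm at this
          rw [this]
          push_cast
          ring) (P := X ^ j) (by rw [natDegree_X_pow]; exact hj)
      refine ⟨C, fun _ z hz => ?_⟩
      have := hC z hz
      rw [one_mul] at this
      exact this
    · exact ⟨0, fun h => absurd h hj⟩
  choose C hC using h1
  refine ⟨Submodule.span ℚ (C '' (Finset.range K : Set ℕ)), ?_, fun P hP => ?_⟩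
  · exact Submodule.fg_span ((Finset.finite_toSet _).image C)
  have hPs : P = ∑ j ∈ Finset.range K, Polynomial.C (P.coeff j) * X ^ j :=
    Polynomial.as_sum_range_C_mul_X_pow' P hP
  refine ⟨∑ j ∈ Finset.range K, ((P.coeff j : ℚ)) • C j, ?_, fun z hz => ?_⟩
  · refine Submodule.sum_mem _ fun j hj => Submodule.smul_mem _ _ (Submodule.subset_span ?_)
    exact ⟨j, by simpa using hj, rfl⟩
  have e1 : ∀ (Q : ℕ → ℚ[X]) (w : ℂ), Gp s K (PC (∑ j ∈ Finset.range K,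
      Polynomial.C (P.coeff j) * Q j)) w = ∑ j ∈ Finset.range K, ((P.coeff j : ℚ) : ℂ) *
        Gp s K (PC (Q j)) w := by
    intro Q w
    unfold PC
    rw [Polynomial.map_sum, Gp_sum]
    refine Finset.sum_congr rfl fun j _ => ?_
    rw [Polynomial.map_mul, Polynomial.map_C, Gp_C_mul]
    rfl
  have e2 : ag K γ P = ∑ j ∈ Finset.range K, Polynomial.C (P.coeff j) * ag K γ (X ^ j) := by
    apply PC_ext
    intro w hw
    rw [ag_eval _ hP hw]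
    unfold PC
    rw [Polynomial.map_sum, Polynomial.eval_finset_sum]
    have e3 : (P.map (algebraMap ℚ ℂ)).eval (mo γ w) =
        ∑ j ∈ Finset.range K, (P.coeff j : ℂ) * (mo γ w) ^ j := by
      rw [Polynomial.eval_map, Polynomial.eval₂_eq_sum_range' _ hP]
      rfl
    rw [e3, Finset.mul_sum]
    refine Finset.sum_congr rfl fun j hj => ?_
    have h5 := ag_eval (K := K) γ (P := X ^ j) (by rw [natDegree_X_pow]; exact Finset.mem_range.1 hj) hw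
    unfold PC at h5
    rw [Polynomial.map_mul, Polynomial.map_C, eval_mul, eval_C, h5, Polynomial.map_pow,
      Polynomial.map_X, eval_pow, eval_X]
    show _ = (P.coeff j : ℂ) * _
    ring
  have e4 : Gp s K (PC P) (mo γ z) = ∑ j ∈ Finset.range K, ((P.coeff j : ℚ) : ℂ) *
        Gp s K (PC (X ^ j)) (mo γ z) := by
    rw [← e1, ← hPs]
  rw [e4, e2, e1, ← Finset.sum_add_distrib]
  refine Finset.sum_congr rfl fun j hj => ?_
  rw [hC j (Finset.mem_range.1 hj) z hz, mul_add, Rat.smul_def]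

lemma Tr.mono {s : ℕ → ℂ} {K : ℕ} {V W : Submodule ℚ ℂ} (h : V ≤ W) {γ : SL(2, ℤ)}
    (h1 : Tr s K V γ) : Tr s K W γ := by
  intro P hP
  obtain ⟨c, hc, e⟩ := h1 P hP
  exact ⟨c, h hc, e⟩

/-- the periods of a finitely generated group -/
theorem exists_VG {G : Subgroup SL(2, ℤ)} (hG : G.FG) {s : ℕ → ℂ} (h : Gr s) {K : ℕ} (hK : 0 < K)
    (hf : ∀ γ ∈ G, ∀ z : ℂ, 0 < z.im → ser s (mo γ z) = jm γ z ^ (K + 1) * ser s z) :
    ∃ V : Submodule ℚ ℂ, V.FG ∧ ∀ γ ∈ G, Tr s K V γ := by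
  classical
  obtain ⟨S, hS⟩ := hG
  have h1 : ∀ γ : SL(2, ℤ), ∃ V : Submodule ℚ ℂ, V.FG ∧ (γ ∈ S → Tr s K V γ) := by
    intro γ
    by_cases hγ : γ ∈ S
    · have hγG : γ ∈ G := by
        rw [← hS]
        exact Subgroup.subset_closure hγ
      obtain ⟨V, hV, hT⟩ := Tr.exists h hK (hf γ hγG)
      exact ⟨V, hV, fun _ => hT⟩
    · exact ⟨⊥, Submodule.fg_bot, fun h => absurd h hγ⟩
  choose V hV hT using h1
  refine ⟨S.sup V, Submodule.fg_finset_sup S V fun γ _ => hV γ, fun γ hγ => ?_⟩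
  rw [← hS] at hγ
  refine Subgroup.closure_induction (p := fun x _ => Tr s K (S.sup V) x) ?_ ?_ ?_ ?_ hγ
  · intro x hx
    exact (hT x hx).mono (Finset.le_sup (f := V) hx)
  · exact Tr.one s K _
  · intro x y _ _ h1 h2
    exact h1.mul hK h2
  · intro x _ h1
    exact h1.inv hK

/-- **The periods of `Γ₀(N)`.** -/
theorem exists_V {N : ℕ} [NeZero N] {s : ℕ → ℂ} (h : Gr s) {K : ℕ} (hK : 0 < K)
    (hf : ∀ γ ∈ Gamma0 N, ∀ z : ℂ, 0 < z.im → ser s (mo γ z) = jm γ z ^ (K + 1) * ser s z) :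
    ∃ V : Submodule ℚ ℂ, V.FG ∧ ∀ γ ∈ Gamma0 N, Tr s K V γ := by
  have hfg : Group.FG (Gamma0 N) := Pool.Agent.Y18.BSD.fg_Gamma0
  exact exists_VG ((Group.fg_iff_subgroup_fg _).1 hfg) h hK hf

end Pool.Agent.K4H15.GM
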