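import Pool.Agent.TH940.Cen

/-!
# Project GM: Fourier series with coefficients of polynomial growth and their primitives
-/

set_option autoImplicit false

open Complex Filter Topology Set

namespace Pool.Agent.K4H15.GM

open Pool.Agent.W108.TW Pool.Agent.TH940

/-- `∑ a(n) e^(2πinz)` -/
noncomputable def ser (a : ℕ → ℂ) (z : ℂ) : ℂ :=
  ∑' n : ℕ, a n * Complex.exp (2 * Real.pi * Complex.I * n * z)

/-- coefficients of polynomial growth -/
structure Gr (a : ℕ → ℂ) : Prop where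
  zero : a 0 = 0
  bd : ∃ C r : ℝ, 0 ≤ C ∧ ∀ n : ℕ, 1 ≤ n → ‖a n‖ ≤ C * (n : ℝ) ^ r

/-- the coefficients of the primitives -/
noncomputable def dd (a : ℕ → ℂ) (i n : ℕ) : ℂ := a n / (2 * Real.pi * Complex.I * n) ^ i

lemma two_pi_ne : (2 * Real.pi * Complex.I : ℂ) ≠ 0 := by
  have := Real.pi_ne_zero
  simp [this]

lemma norm_two_pi : ‖(2 * Real.pi * Complex.I : ℂ)‖ = 2 * Real.pi := by
  rw [norm_mul, norm_mul, Complex.norm_I, mul_one, Complex.norm_real, Real.norm_eq_abs,
    abs_of_pos Real.pi_pos]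
  norm_num

lemma dd_zero (a : ℕ → ℂ) : dd a 0 = a := by
  funext n
  unfold dd
  rw [pow_zero, div_one]

lemma Gr.dd {a : ℕ → ℂ} (h : Gr a) (i : ℕ) : Gr (dd a i) := by
  obtain ⟨C, r, hC, hb⟩ := h.bd
  refine ⟨by unfold GM.dd; rw [h.zero, zero_div], C, r, hC, fun n hn => ?_⟩
  unfold GM.dd
  rw [norm_div, norm_pow, norm_mul, norm_two_pi, Complex.norm_natCast]
  have h1 : (1 : ℝ) ≤ n := by exact_mod_cast hn
  have h2 : (1 : ℝ) ≤ 2 * Real.pi * n := by
    have := Real.two_le_pi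
    nlinarith
  exact (div_le_self (norm_nonneg _) (one_le_pow₀ h2)).trans (hb n hn)

lemma Gr.bound {a : ℕ → ℂ} (h : Gr a) : ∃ C r : ℝ, 0 ≤ C ∧ ∀ (δ : ℝ) (n : ℕ) (w : ℂ), δ ≤ w.im →
    ‖a n * Complex.exp (2 * Real.pi * Complex.I * n * w)‖ ≤
      C * ((n : ℝ) ^ r * Real.exp (-((2 * Real.pi * δ) * n))) := by
  obtain ⟨C, r, hC, hb⟩ := h.bd
  refine ⟨C, r, hC, fun δ n w hw => ?_⟩
  rcases Nat.eq_zero_or_pos n with rfl | hn
  · rw [h.zero, zero_mul, norm_zero]; positivity
  · rw [norm_mul, exp_norm]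
    have h1 : Real.exp (-(2 * Real.pi * w.im * n)) ≤ Real.exp (-((2 * Real.pi * δ) * n)) := by
      apply Real.exp_le_exp.mpr
      have : 2 * Real.pi * δ * n ≤ 2 * Real.pi * w.im * n := by gcongr
      linarith
    calc ‖a n‖ * Real.exp (-(2 * Real.pi * w.im * n)) ≤
          (C * (n : ℝ) ^ r) * Real.exp (-((2 * Real.pi * δ) * n)) :=
          mul_le_mul (hb n hn) h1 (Real.exp_pos _).le (by positivity)
      _ = _ := by ring

lemma Gr.summable {a : ℕ → ℂ} (h : Gr a) {z : ℂ} (hz : 0 < z.im) :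
    Summable (fun n : ℕ => a n * Complex.exp (2 * Real.pi * Complex.I * n * z)) := by
  obtain ⟨C, r, hC, hb⟩ := h.bound
  have hpi := Real.pi_pos
  exact Summable.of_norm_bounded
    ((summable_maj (2 * Real.pi * z.im) (by positivity) r).mul_left C) fun n => hb _ n z le_rfl

theorem ser_deriv {a b : ℕ → ℂ} (ha : Gr a) (hb : Gr b)
    (hab : ∀ n, a n * (2 * Real.pi * Complex.I * n) = b n) {z : ℂ} (hz : 0 < z.im) :
    HasDerivAt (ser a) (ser b z) z := by
  obtain ⟨C, r, hC, hbd⟩ := hb.bound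
  set δ : ℝ := z.im / 2 with hδ
  have hδ0 : 0 < δ := by positivity
  have hpi := Real.pi_pos
  set t : Set ℂ := {w : ℂ | δ < w.im} with ht
  have htopen : IsOpen t := isOpen_lt continuous_const Complex.continuous_im
  have htpre : IsPreconnected t := (convex_halfSpace_im_gt δ).isPreconnected
  have hzt : z ∈ t := by
    show δ < z.im
    rw [hδ]; linarith
  have hu : Summable (fun n : ℕ => C * ((n : ℝ) ^ r * Real.exp (-((2 * Real.pi * δ) * n)))) :=
    (summable_maj (2 * Real.pi * δ) (by positivity) r).mul_left _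
  have hg : ∀ (n : ℕ) (w : ℂ), w ∈ t → HasDerivAt
      (fun w : ℂ => a n * Complex.exp (2 * Real.pi * Complex.I * n * w))
      (b n * Complex.exp (2 * Real.pi * Complex.I * n * w)) w := by
    intro n w _
    have h2 : HasDerivAt (fun w : ℂ => 2 * Real.pi * Complex.I * n * w)
        (2 * Real.pi * Complex.I * n) w := by
      simpa using (hasDerivAt_id w).const_mul (2 * Real.pi * Complex.I * n : ℂ)
    refine (h2.cexp.const_mul (a n)).congr_deriv ?_
    rw [← hab n]
    ring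
  exact hasDerivAt_tsum_of_isPreconnected hu htopen htpre hg
    (fun n w hw => hbd δ n w (le_of_lt hw)) hzt (ha.summable hz) hzt

lemma dd_step {a : ℕ → ℂ} (h : Gr a) (i n : ℕ) :
    dd a (i + 1) n * (2 * Real.pi * Complex.I * n) = dd a i n := by
  unfold dd
  rcases Nat.eq_zero_or_pos n with rfl | hn
  · rw [h.zero]; simp
  · have h1 : (n : ℂ) ≠ 0 := by exact_mod_cast hn.ne'
    have h2 := mul_ne_zero two_pi_ne h1
    rw [pow_succ]
    field_simp

theorem ser_dd_deriv {a : ℕ → ℂ} (h : Gr a) (i : ℕ) {z : ℂ} (hz : 0 < z.im) :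
    HasDerivAt (ser (dd a (i + 1))) (ser (dd a i) z) z :=
  ser_deriv (h.dd _) (h.dd _) (dd_step h i) hz

/-- decay on the vertical lines -/
theorem ser_line {a : ℕ → ℂ} (h : Gr a) (x : ℝ) (j : ℕ) :
    Tendsto (fun T : ℝ => ((x : ℂ) + (T : ℂ) * Complex.I) ^ j *
      ser a ((x : ℂ) + (T : ℂ) * Complex.I)) atTop (𝓝 0) := by
  obtain ⟨C, r, hC, hb⟩ := h.bd
  have hb0 : a 0 * Complex.exp (2 * Real.pi * Complex.I * (0 : ℕ) * x) = 0 := by
    rw [h.zero, zero_mul]
  have hbb : ∀ n : ℕ, 1 ≤ n → ‖a n * Complex.exp (2 * Real.pi * Complex.I * n * x)‖ ≤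
      C * (n : ℝ) ^ r := by
    intro n hn
    rw [norm_mul, exp_norm, Complex.ofReal_im]
    simpa using hb n hn
  have h1 := Th_isBigO (b := fun n : ℕ => a n * Complex.exp (2 * Real.pi * Complex.I * n * x))
    hb0 hbb (c := 2 * Real.pi) (by positivity) (-(j + 1 : ℝ))
  simp only [sub_zero] at h1
  have h2 : ∀ T : ℝ, ser a ((x : ℂ) + (T : ℂ) * Complex.I) =
      Th (fun n : ℕ => a n * Complex.exp (2 * Real.pi * Complex.I * n * x)) (2 * Real.pi) T := by
    intro T
    unfold Th ser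
    refine tsum_congr fun n => ?_
    show a n * _ = a n * Complex.exp (2 * Real.pi * Complex.I * n * x) * _
    refine Eq.trans ?_ (mul_assoc _ _ _).symm
    refine congrArg (a n * ·) ?_
    rw [Complex.ofReal_exp, ← Complex.exp_add]
    congr 1
    push_cast
    linear_combination (2 * Real.pi * n * T : ℂ) * Complex.I_sq
  simp only [h2]
  have h3 : (fun T : ℝ => ((x : ℂ) + (T : ℂ) * Complex.I) ^ j) =O[atTop] fun T : ℝ => T ^ (j : ℝ) := by
    have h4 : (fun T : ℝ => ((x : ℂ) + (T : ℂ) * Complex.I)) =O[atTop] fun T : ℝ => T := by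
      refine Asymptotics.IsBigO.of_bound (|x| + 1) ?_
      filter_upwards [eventually_ge_atTop (1 : ℝ)] with T hT
      refine (norm_add_le _ _).trans ?_
      rw [norm_mul, Complex.norm_I, mul_one, Complex.norm_real, Complex.norm_real, Real.norm_eq_abs,
        Real.norm_eq_abs, add_mul, one_mul]
      have h5 : |x| ≤ |x| * |T| := by
        rw [abs_of_pos (by linarith : (0 : ℝ) < T)]
        nlinarith [abs_nonneg x]
      linarith
    refine (h4.pow j).trans (Asymptotics.isBigO_of_le _ fun T => ?_)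
    rw [Real.rpow_natCast]
  have h5 := h3.mul h1
  refine h5.trans_tendsto ?_
  refine (tendsto_rpow_neg_atTop one_pos).congr' ?_
  filter_upwards [eventually_gt_atTop (0 : ℝ)] with T hT
  rw [← Real.rpow_add hT]
  congr 1
  ring

end Pool.Agent.K4H15.GM
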